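import Pool.Agent.H76.IN.Lb
import Pool.Agent.H36.MG.Gp
import Pool.Agent.H36.AB.Ur
import Pool.Agent.H88.AB.Fn

/-!
Project INF (MP_78d38b_nt, infinite case of MG): the decomposition groups of the auxiliary places in all layers
(no row, proved).
-/

set_option autoImplicit false
set_option linter.unusedSectionVars false
open scoped Classical

open WithZero NumberField IsDedekindDomain H76PP H36CY H30MG H30CY H76AB Pool.Agent.H42.PC

namespace H76IN

section Grp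

variable {G : Type*} [Group G]

theorem pow_comp (hp : IsPGroup 2 G) (x : G) (i j : ℕ) :
    x ^ i ∈ Subgroup.zpowers (x ^ j) ∨ x ^ j ∈ Subgroup.zpowers (x ^ i) := by
  have key : ∀ a b m l : ℕ, a ≤ b → Odd m → x ^ (2 ^ b * l) ∈ Subgroup.zpowers (x ^ (2 ^ a * m)) := by
    intro a b m l hab hm
    have h1 : x ^ 2 ^ a ∈ Subgroup.zpowers (x ^ (2 ^ a * m)) := by
      refine H36MG.mem_of_odd_pow hp _ (n := (m : ℤ)) ?_ ?_
      · rw [Int.not_even_iff_odd]
        exact_mod_cast hm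
      · rw [zpow_natCast, ← pow_mul]
        exact Subgroup.mem_zpowers _
    obtain ⟨c, rfl⟩ := Nat.exists_eq_add_of_le hab
    have e1 : x ^ (2 ^ (a + c) * l) = (x ^ 2 ^ a) ^ (2 ^ c * l) := by
      rw [← pow_mul, pow_add, mul_assoc]
    rw [e1]
    exact Subgroup.pow_mem _ h1 _
  rcases Nat.eq_zero_or_pos i with rfl | hi
  · left
    rw [pow_zero]
    exact Subgroup.one_mem _
  rcases Nat.eq_zero_or_pos j with rfl | hj
  · right
    rw [pow_zero]
    exact Subgroup.one_mem _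
  obtain ⟨a, m, hm, rfl⟩ := Nat.exists_eq_two_pow_mul_odd hi.ne'
  obtain ⟨b, l, hl, rfl⟩ := Nat.exists_eq_two_pow_mul_odd hj.ne'
  rcases le_total a b with h | h
  · exact Or.inr (key a b m l h hm)
  · exact Or.inl (key b a l m h hl)

variable {G₁ : Type*} [Group G₁]

/-- The kernel of the restriction is generated by powers of a lift of a large element. -/
theorem ker_pow (hp : IsPGroup 2 G) {D : Subgroup G} {r : G →* G₁} {k : ℕ}
    (hC : ∃ c ∈ D, ∀ y ∈ D, ∃ i : ℕ, y ^ 2 ^ k = (c ^ 2 ^ k) ^ i)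
    (hker : ∀ z, r z = 1 → ∃ y ∈ D, y ^ 2 ^ k = z) {h : G} (hh : h ∈ D)
    (hne : r h ^ 2 ^ (k + 1) ≠ 1) {z : G} (hz : r z = 1) :
    z ∈ Subgroup.zpowers (h ^ 2 ^ (k + 1)) := by
  obtain ⟨c, hc, hgen⟩ := hC
  obtain ⟨y, hy, rfl⟩ := hker z hz
  obtain ⟨i, hi⟩ := hgen y hy
  obtain ⟨j, hj⟩ := hgen (h ^ 2) (D.pow_mem hh 2)
  have e1 : h ^ 2 ^ (k + 1) = (c ^ 2 ^ k) ^ j := by
    rw [← hj, ← pow_mul, ← pow_succ']
  rcases pow_comp hp (c ^ 2 ^ k) i j with h1 | h1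
  · rw [hi, e1]
    exact h1
  · exfalso
    apply hne
    rw [← map_pow, e1]
    obtain ⟨n, hn⟩ := Subgroup.mem_zpowers_iff.1 h1
    rw [← hn, ← hi, map_zpow, hz, one_zpow]

/-- The preimage of the group generated by the image of a large element. -/
theorem comap_zp (hp : IsPGroup 2 G) {D : Subgroup G} {r : G →* G₁} {k : ℕ}
    (hC : ∃ c ∈ D, ∀ y ∈ D, ∃ i : ℕ, y ^ 2 ^ k = (c ^ 2 ^ k) ^ i)
    (hker : ∀ z, r z = 1 → ∃ y ∈ D, y ^ 2 ^ k = z) {h : G} (hh : h ∈ D)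
    (hne : r h ^ 2 ^ (k + 1) ≠ 1) :
    (Subgroup.zpowers (r h)).comap r = Subgroup.zpowers h ∧
      (Subgroup.zpowers (r h ^ 2)).comap r = Subgroup.zpowers (h ^ 2) := by
  have h1 : ∀ z, r z = 1 → z ∈ Subgroup.zpowers (h ^ 2) := by
    intro z hz
    obtain ⟨n, hn⟩ := Subgroup.mem_zpowers_iff.1 (ker_pow hp hC hker hh hne hz)
    have e1 : h ^ 2 ^ (k + 1) = (h ^ 2) ^ 2 ^ k := by rw [← pow_mul, ← pow_succ']
    rw [← hn, e1]
    exact Subgroup.zpow_mem _ (Subgroup.npow_mem_zpowers _ _) n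
  have key : ∀ m : ℕ, (∀ z, r z = 1 → z ∈ Subgroup.zpowers (h ^ m)) →
      (Subgroup.zpowers (r h ^ m)).comap r = Subgroup.zpowers (h ^ m) := by
    intro m hm
    ext x
    rw [Subgroup.mem_comap]
    constructor
    · intro hx
      obtain ⟨n, hn⟩ := Subgroup.mem_zpowers_iff.1 hx
      have h2 : r (x * ((h ^ m) ^ n)⁻¹) = 1 := by
        rw [map_mul, map_inv, map_zpow, map_pow, hn, mul_inv_cancel]
      have h3 := Subgroup.mul_mem _ (hm _ h2) (Subgroup.zpow_mem _ (Subgroup.mem_zpowers (h ^ m)) n)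
      rwa [inv_mul_cancel_right] at h3
    · intro hx
      obtain ⟨n, rfl⟩ := Subgroup.mem_zpowers_iff.1 hx
      rw [map_zpow, map_pow]
      exact Subgroup.zpow_mem _ (Subgroup.mem_zpowers _) n
  constructor
  · have h2 := key 1 (fun z hz => by
      rw [pow_one]
      obtain ⟨n, hn⟩ := Subgroup.mem_zpowers_iff.1 (h1 z hz)
      rw [← hn]
      exact Subgroup.zpow_mem _ (Subgroup.npow_mem_zpowers _ _) n)
    rwa [pow_one, pow_one] at h2
  · exact key 2 h1

end Grp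

section Un

variable {K N : Type} [Field K] [NumberField K] [Field N] [NumberField N] [Algebra K N]

theorem un_of_ram [IsGalois K N] {v : HeightOneSpectrum (𝓞 K)}
    (h : ∀ V : HeightOneSpectrum (𝓞 N), dn K V = v → ¬ H73P2.Ram K V) : Un K N v := by
  intro w hw g hg
  have h1 : dn K w = v := HeightOneSpectrum.ext hw.over.symm
  have h2 := H36AB.inertia_iff.1 (h w h1)
  have h3 : g ∈ w.asIdeal.inertia (N ≃ₐ[K] N) := hg
  rw [h2] at h3
  exact h3

theorem exists_frob [IsGalois K N] (W : HeightOneSpectrum (𝓞 N)) :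
    ∃ g : N ≃ₐ[K] N, IsArithFrobAt (𝓞 K) g W.asIdeal := by
  have hwp := W.isPrime
  have : Finite (𝓞 N ⧸ W.asIdeal) := Ideal.finiteQuotientOfFreeOfNeBot _ W.ne_bot
  exact IsArithFrobAt.exists_of_isInvariant (𝓞 K) (N ≃ₐ[K] N) W.asIdeal

end Un

section Two

variable {K N₀ N : Type} [Field K] [NumberField K] [Field N₀] [NumberField N₀] [Field N] [NumberField N]
  [Algebra K N₀] [Algebra N₀ N] [Algebra K N] [IsScalarTower K N₀ N] [IsGalois K N₀] [IsGalois K N]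
  {u p : HeightOneSpectrum (𝓞 K)} {n k : ℕ}

/-- The decomposition groups of an auxiliary place `u` are the preimages of the group generated by `g₁`. -/
theorem aux_dec (hu : Un K N u) (h₀ : DOk K N₀ p n) (h : DOk K N p n) {r : ℕ}
    (hr : Module.finrank K N = 2 ^ r) (hk : n ≤ 2 ^ k)
    (hker : ∀ z : N ≃ₐ[K] N, AlgEquiv.restrictNormalHom N₀ z = 1 → z ∈ Cs K N p k)
    {g₁ : N₀ ≃ₐ[K] N₀} (hg₁ : g₁ ∈ Dc K N₀ p) (hne : g₁ ^ 2 ^ (k + 1) ≠ 1)
    {W₁ : HeightOneSpectrum (𝓞 N₀)} (hW₁ : dn K W₁ = u) (hdec : Dec K W₁ = Subgroup.zpowers g₁)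
    {W : HeightOneSpectrum (𝓞 N)} (hW : dn K W = u) :
    Dec K W = (Subgroup.zpowers g₁).comap (AlgEquiv.restrictNormalHom N₀) ∧
      ∃ h ∈ Dc K N p, Dec K W = Subgroup.zpowers h := by
  have _ : FiniteDimensional K N := Module.Finite.of_restrictScalars_finite ℚ K N
  have hnorm : (Subgroup.zpowers g₁).Normal := by
    refine ⟨fun x hx y => ?_⟩
    obtain ⟨j, rfl⟩ := Subgroup.mem_zpowers_iff.1 hx
    rw [conj_zpow.symm]
    exact Subgroup.zpow_mem _ (h₀.conj' g₁ hg₁ y) j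
  have hd : dn K (dn N₀ W) = u := (dn_tower W).trans hW
  have h1 : Dec K (dn N₀ W) = Subgroup.zpowers g₁ := by
    rw [dec_eq (hd.trans hW₁.symm) (by rw [hdec]; exact hnorm), hdec]
  obtain ⟨g, hg⟩ := exists_frob (K := K) W
  have h2 : Dec K W = Subgroup.zpowers g := by
    subst hW
    exact dec_frob hu hg
  have hmap := dec_map (K := K) (N₀ := N₀) W
  rw [h2, h1, MonoidHom.map_zpowers] at hmap
  have hp2 : IsPGroup 2 (N ≃ₐ[K] N) := by
    rw [IsPGroup.iff_card]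
    exact ⟨r, by rw [IsGalois.card_aut_eq_finrank, hr]⟩
  have hC := (cs_cyc h hr hk).1
  have hker' : ∀ z : N ≃ₐ[K] N, AlgEquiv.restrictNormalHom N₀ z = 1 →
      ∃ y ∈ Dc K N p, y ^ 2 ^ k = z := fun z hz => (mem_cs h).1 (hker z hz)
  -- `g` is in the decomposition group at `p`
  have hgD : g ∈ Dc K N p := by
    have h3 : AlgEquiv.restrictNormalHom N₀ g ∈ Dc K N₀ p := by
      have h4 : AlgEquiv.restrictNormalHom N₀ g ∈ Subgroup.zpowers g₁ := by
        rw [← hmap]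
        exact Subgroup.mem_zpowers _
      exact (Subgroup.zpowers_le.2 hg₁) h4
    rw [← dc_map (N := N) h₀] at h3
    obtain ⟨y, hy, hyg⟩ := h3
    have h5 : AlgEquiv.restrictNormalHom N₀ (g * y⁻¹) = 1 := by
      rw [map_mul, map_inv, hyg, mul_inv_cancel]
    obtain ⟨y', hy', he⟩ := hker' _ h5
    have h6 : g = y' ^ 2 ^ k * y := by
      rw [he, inv_mul_cancel_right]
    rw [h6]
    exact Subgroup.mul_mem _ (Subgroup.pow_mem _ hy' _) hy
  have hne' : (AlgEquiv.restrictNormalHom N₀ g) ^ 2 ^ (k + 1) ≠ 1 := by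
    intro h3
    apply hne
    have h4 : g₁ ∈ Subgroup.zpowers (AlgEquiv.restrictNormalHom N₀ g) := by
      rw [hmap]
      exact Subgroup.mem_zpowers _
    obtain ⟨j, hj⟩ := Subgroup.mem_zpowers_iff.1 h4
    rw [← hj, ← zpow_natCast, ← zpow_mul, mul_comm, zpow_mul, zpow_natCast, h3, one_zpow]
  refine ⟨?_, g, hgD, h2⟩
  rw [h2, ← hmap]
  exact (comap_zp hp2 hC hker' hgD hne').1.symm

end Two

end H76IN
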