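import Pool.Agent.H76.IN.La
import Pool.Agent.H36.MG.Gp
import Pool.Agent.H36.MG.Gt
import Pool.Agent.H30.MG.Lq

/-!
Project INF (MP_78d38b_nt, infinite case of MG): the classes in `K_p` of the quadratic characters of the
decomposition group (no row, proved).
-/

set_option autoImplicit false
set_option linter.unusedSectionVars false
open scoped Classical

open WithZero NumberField IsDedekindDomain H76PP H36CY H30MG H30CY H76AB H36MX H38RT
open H38T1 (SC sc)

namespace H76IN

variable {K N : Type} [Field K] [NumberField K] [Field N] [NumberField N] [Algebra K N]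

/-- `m` is the class of the quadratic character of the decomposition group with the value `-1` on `δ`. -/
def Rho (W : HeightOneSpectrum (𝓞 N)) (δ : Set (N ≃ₐ[K] N)) (m : (dn K W).adicCompletion K) : Prop :=
  ∃ ρ : N, ρ ≠ 0 ∧ (∀ g ∈ Dec K W, g ∈ δ → g ρ = -ρ) ∧ (∀ g ∈ Dec K W, g ∉ δ → g ρ = ρ) ∧
    (over_dn (K := K) W).map m = algebraMap N (W.adicCompletion N) ρ ^ 2

theorem Rho.ne {W : HeightOneSpectrum (𝓞 N)} {δ : Set (N ≃ₐ[K] N)} {m : (dn K W).adicCompletion K}
    (h : Rho W δ m) : m ≠ 0 := by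
  obtain ⟨ρ, h0, -, -, h4⟩ := h
  rintro rfl
  rw [map_zero] at h4
  exact h0 ((map_eq_zero _).1 (pow_eq_zero_iff two_ne_zero |>.1 h4.symm))

theorem scz {F : Type} [Field F] (x : SC F) : x + x = 0 := by
  rw [← two_nsmul, ← Nat.cast_smul_eq_nsmul (ZMod 2)]
  have h1 : ((2 : ℕ) : ZMod 2) = 0 := by decide
  rw [h1, zero_smul]

/-- Existence of the class. -/
theorem exists_rho [IsGalois K N] (W : HeightOneSpectrum (𝓞 N))
    (hcomm : ∀ x ∈ Dec K W, ∀ y ∈ Dec K W, x * y = y * x) (H : Subgroup (N ≃ₐ[K] N))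
    {g : N ≃ₐ[K] N} (hg : g ∈ Dec K W) (hgH : g ∉ H) (hHD : H ≤ Dec K W)
    (hH : ∀ x ∈ Dec K W, x ∈ H ∨ x * g⁻¹ ∈ H) {δ : Set (N ≃ₐ[K] N)}
    (hδ : ∀ x ∈ Dec K W, x ∈ δ ↔ x ∉ H) : ∃ m, Rho W δ m := by
  have _ : FiniteDimensional K N := Module.Finite.of_restrictScalars_finite ℚ K N
  have hg2 : g ^ 2 ∈ H := by
    rcases hH (g ^ 2) (Subgroup.pow_mem _ hg 2) with h1 | h1
    · exact h1
    · exfalso
      apply hgH
      rwa [sq, mul_inv_cancel_right] at h1
  obtain ⟨t, ht0, ht1, ht2⟩ := H36MG.ex_anti H hgH hg2 (fun h hh => by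
    rw [mul_assoc, hcomm h (hHD hh) g hg, ← mul_assoc, inv_mul_cancel, one_mul]
    exact hh)
  have hneg : ∀ x ∈ Dec K W, x ∉ H → x t = -t := by
    intro x hx hxH
    have h1 := (hH x hx).resolve_left hxH
    have h2 : x = g * (x * g⁻¹) := by
      rw [hcomm x hx _ (Subgroup.inv_mem _ hg)]
      group
    rw [h2, AlgEquiv.mul_apply, ht1 _ h1, ht2]
  obtain ⟨m, hm⟩ := fixed_range (K := K) (W := W) (y := algebraMap N (W.adicCompletion N) (t ^ 2))
    (fun x hx => by
      rw [ac_coe hx, map_pow x]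
      by_cases hxH : x ∈ H
      · rw [ht1 x hxH]
      · rw [hneg x hx hxH, neg_sq])
  refine ⟨m, t, ht0, fun x hx hxδ => hneg x hx ((hδ x hx).1 hxδ), fun x hx hxδ => ?_, ?_⟩
  · have h1 : x ∈ H := by
      by_contra h2
      exact hxδ ((hδ x hx).2 h2)
    exact ht1 x h1
  · rw [hm, map_pow]

/-- Different characters have different classes. -/
theorem rho_inj {W : HeightOneSpectrum (𝓞 N)} {δ δ' : Set (N ≃ₐ[K] N)}
    {m m' : (dn K W).adicCompletion K} (h : Rho W δ m) (h' : Rho W δ' m') (he : sc m = sc m')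
    {g : N ≃ₐ[K] N} (hg : g ∈ Dec K W) : g ∈ δ ↔ g ∈ δ' := by
  have hm0 := h.ne
  have hm0' := h'.ne
  obtain ⟨ρ, h0, h1, h2, h3⟩ := h
  obtain ⟨ρ', h0', h1', h2', h3'⟩ := h'
  have h4 : IsSquare (m * m') := by
    rw [← H38T1.sc_eq_zero (mul_ne_zero hm0 hm0'), H38T1.sc_mul hm0 hm0', he]
    exact scz _
  obtain ⟨c, hc⟩ := h4
  have h5 : (algebraMap N (W.adicCompletion N) (ρ * ρ')) ^ 2 = ((over_dn (K := K) W).map c) ^ 2 := by
    rw [map_mul, mul_pow, ← h3, ← h3', ← map_mul, hc, map_mul, sq]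
  have h6 : ac W g (algebraMap N (W.adicCompletion N) (ρ * ρ')) =
      algebraMap N (W.adicCompletion N) (ρ * ρ') := by
    have h7 : ∀ y, ac W g ((over_dn (K := K) W).map y) = (over_dn (K := K) W).map y :=
      ac_fix (K := K) (M := K) hg fun x => g.commutes x
    rcases sq_eq_sq_iff_eq_or_eq_neg.1 h5 with h8 | h8
    · rw [h8, h7]
    · rw [h8, map_neg, h7]
  rw [ac_coe hg] at h6
  have h7 := (algebraMap N (W.adicCompletion N)).injective h6
  rw [map_mul] at h7
  have h8 : ρ * ρ' ≠ 0 := mul_ne_zero h0 h0'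
  by_cases hgδ : g ∈ δ <;> by_cases hgδ' : g ∈ δ'
  · exact iff_of_true hgδ hgδ'
  · exfalso
    rw [h1 g hg hgδ, h2' g hg hgδ', neg_mul] at h7
    exact h8 (self_eq_neg.1 h7.symm)
  · exfalso
    rw [h2 g hg hgδ, h1' g hg hgδ', mul_neg] at h7
    exact h8 (self_eq_neg.1 h7.symm)
  · exact iff_of_false hgδ hgδ'

theorem val_coe (W : HeightOneSpectrum (𝓞 N)) (x : N) :
    Valued.v (algebraMap N (W.adicCompletion N) x) = W.valuation N x :=
  HeightOneSpectrum.valuedAdicCompletion_eq_valuation' W x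

/-- The inertia group acts trivially on the residue field of the completion. -/
theorem inert_int {W : HeightOneSpectrum (𝓞 N)} {i : N ≃ₐ[K] N} (hi : i ∈ Dec K W)
    (hin : ∀ x : 𝓞 N, i • x - x ∈ W.asIdeal) {s : W.adicCompletion N} (hs : Valued.v s ≤ 1) :
    Valued.v (ac W i s - s) < 1 := by
  have hint : ∀ x : 𝓞 N, W.valuation N (i (algebraMap (𝓞 N) N x) - algebraMap (𝓞 N) N x) < 1 := by
    intro x
    have h1 : i (algebraMap (𝓞 N) N x) - algebraMap (𝓞 N) N x =
        algebraMap (𝓞 N) N (i • x - x) := by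
      rw [map_sub]
      rfl
    rw [h1]
    exact (W.valuation_lt_one_iff_mem (K := N) _).2 (hin x)
  have hx : ∀ x : N, W.valuation N x ≤ 1 → W.valuation N (i x - x) < 1 := by
    intro x hx
    obtain ⟨n, ⟨d, hd⟩, hnd⟩ := HeightOneSpectrum.exists_primeCompl_mul_eq_of_integer W x hx
    have hnd' : x * algebraMap (𝓞 N) N d = algebraMap (𝓞 N) N n := hnd
    have hWd : W.valuation N (algebraMap (𝓞 N) N d) = 1 :=
      (W.valuation_eq_one_iff_notMem (K := N) (r := d)).2 hd
    have h1 : (i x - x) * i (algebraMap (𝓞 N) N d) =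
        (i (algebraMap (𝓞 N) N n) - algebraMap (𝓞 N) N n) -
          x * (i (algebraMap (𝓞 N) N d) - algebraMap (𝓞 N) N d) := by
      rw [← hnd', map_mul]
      ring
    have h2 : W.valuation N ((i x - x) * i (algebraMap (𝓞 N) N d)) < 1 := by
      rw [h1]
      refine Valuation.map_sub_lt _ (hint n) ?_
      rw [map_mul]
      exact mul_lt_one_of_nonneg_of_lt_one_right hx zero_le (hint d)
    rwa [map_mul, mem_dec.1 hi, hWd, mul_one] at h2
  obtain ⟨x, hxs⟩ := (HeightOneSpectrum.denseRange_algebraMap (K := N) W).mem_nhds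
    (Te_nhd s (one_ne_zero : (1 : W.adicCompletion N) ≠ 0))
  have hxs' : Valued.v (algebraMap N (W.adicCompletion N) x - s) < 1 := by
    have h1 : Valued.v (algebraMap N (W.adicCompletion N) x - s) <
      Valued.v (1 : W.adicCompletion N) := hxs
    rwa [map_one] at h1
  have hx1 : W.valuation N x ≤ 1 := by
    rw [← val_coe]
    have h1 : algebraMap N (W.adicCompletion N) x =
        (algebraMap N (W.adicCompletion N) x - s) + s := by ring
    rw [h1]
    exact Valuation.map_add_le _ hxs'.le hs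
  have h1 : ac W i s - s = (algebraMap N (W.adicCompletion N) x - s) -
      ac W i (algebraMap N (W.adicCompletion N) x - s) +
      algebraMap N (W.adicCompletion N) (i x - x) := by
    rw [map_sub (ac W i), ac_coe hi, map_sub (algebraMap N (W.adicCompletion N))]
    ring
  rw [h1]
  refine Valuation.map_add_lt _ (Valuation.map_sub_lt _ hxs' ?_) ?_
  · rw [ac_iso hi]
    exact hxs'
  · rw [val_coe]
    exact hx x hx1

/-- The class of a ramified character is not the unramified class. -/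
theorem rho_ne_unr {W : HeightOneSpectrum (𝓞 N)} (h2 : W.valuation N 2 < 1)
    {δ : Set (N ≃ₐ[K] N)} {m : (dn K W).adicCompletion K} (h : Rho W δ m) {i : N ≃ₐ[K] N}
    (hi : i ∈ Dec K W) (hin : ∀ x : 𝓞 N, i • x - x ∈ W.asIdeal) (hiδ : i ∈ δ)
    {g0 : (dn K W).adicCompletion K} (hg0 : Unr g0) (h0 : g0 ≠ 0) : sc m ≠ sc g0 := by
  intro he
  have hm0 := h.ne
  obtain ⟨ρ, hρ0, h1, -, h3⟩ := h
  obtain ⟨R, hR1, -, hR⟩ := hg0
  have h4 : IsSquare (m * g0) := by
    rw [← H38T1.sc_eq_zero (mul_ne_zero hm0 h0), H38T1.sc_mul hm0 h0, he]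
    exact scz _
  obtain ⟨c, hc⟩ := h4
  set j := (over_dn (K := K) W).map with hj
  set a := algebraMap N (W.adicCompletion N) with ha
  have haρ : a ρ ≠ 0 := (map_ne_zero a).2 hρ0
  obtain ⟨w, hw⟩ : ∃ w, w = j c / a ρ := ⟨_, rfl⟩
  have hw2 : w ^ 2 = j g0 := by
    rw [hw, div_pow, ← h3, div_eq_iff ((map_ne_zero j).2 hm0), ← map_pow, ← map_mul, sq, ← hc,
      mul_comm]
  have hfix : ∀ y, ac W i (j y) = j y :=
    ac_fix (K := K) (M := K) hi fun x => i.commutes x
  have hwi : ac W i w = -w := by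
    rw [hw, map_div₀, hfix, ac_coe hi, h1 i hi hiδ, map_neg, div_neg]
  have h2' : Valued.v (2 : W.adicCompletion N) < 1 := by
    have e1 : (2 : W.adicCompletion N) = a 2 := by rw [map_ofNat]
    rw [e1, val_coe]
    exact h2
  have h20 : (2 : W.adicCompletion N) ≠ 0 := two_ne_zero
  obtain ⟨s, hs⟩ : ∃ s, s = (w - 1) / 2 := ⟨_, rfl⟩
  have hws : w = 1 + 2 * s := by
    rw [hs]
    field_simp
    ring
  have hsR : s ^ 2 + s = j R := by
    have e1 : (4 : W.adicCompletion N) * (s ^ 2 + s) = 4 * j R := by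
      have e2 : w ^ 2 = 1 + 4 * j R := by
        rw [hw2, hR, map_add, map_mul, map_one, map_ofNat]
      rw [hws] at e2
      linear_combination e2
    have h40 : (4 : W.adicCompletion N) ≠ 0 := by
      have e3 : (4 : W.adicCompletion N) = 2 * 2 := by norm_num
      rw [e3]
      exact mul_ne_zero h20 h20
    exact mul_left_cancel₀ h40 e1
  have hjR : Valued.v (j R) ≤ 1 := by
    have e1 : Valued.v (j R) ≤ Valued.v (j 1) := H36LG.map_le' (over_dn (K := K) W) (by
      rw [map_one]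
      exact hR1)
    rwa [map_one, map_one] at e1
  have hs1 : Valued.v s ≤ 1 := by
    by_contra hcon
    rw [not_le] at hcon
    have e1 : Valued.v (s ^ 2 + s) = Valued.v s ^ 2 := by
      have e3 : Valued.v s < Valued.v (s ^ 2) := by
        rw [map_pow, sq]
        exact lt_mul_of_one_lt_left (zero_lt_one.trans hcon) hcon
      rw [Valuation.map_add_eq_of_lt_left _ e3, map_pow]
    rw [hsR] at e1
    rw [e1] at hjR
    have e2 : (1 : WithZero (Multiplicative ℤ)) < Valued.v s ^ 2 := by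
      rw [sq]
      exact one_lt_mul'' hcon hcon
    exact absurd hjR (not_le.2 e2)
  have h5 := inert_int hi hin hs1
  have h6 : ac W i s - s = -(1 + 2 * s) := by
    have e1 : ac W i s = (ac W i w - 1) / 2 := by
      rw [hs, map_div₀, map_sub, map_one, map_ofNat]
    rw [e1, hwi, hws]
    field_simp
    ring
  rw [h6, Valuation.map_neg] at h5
  have h7 : Valued.v (1 + 2 * s) = 1 := by
    have e1 : Valued.v (2 * s) < Valued.v (1 : W.adicCompletion N) := by
      rw [map_mul, map_one]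
      exact mul_lt_one_of_lt_of_le h2' hs1
    rw [Valuation.map_add_eq_of_lt_left _ e1, map_one]
  rw [h7] at h5
  exact lt_irrefl _ h5

end H76IN
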