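import Pool.Agent.H76.IN.Df

/-!
Project INF (MP_78d38b_nt, infinite case of MG): the configuration (no row, proved).
-/

set_option autoImplicit false
set_option linter.unusedSectionVars false
open scoped Classical

open WithZero NumberField IsDedekindDomain H76PP H36CY H30MG H30CY H76AB H36MX H38RT H76MQ H76MX
open Pool.Agent.H42.PC H88AB H36IN H36MG
open H38T1 (SC sc)

namespace H76IN

variable {K F : Type} [Field K] [NumberField K] [Field F] [Algebra K F] {F₁ : IntermediateField K F}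
  [NumberField F₁] [IsGalois K F₁] {η : (u : HeightOneSpectrum (𝓞 K)) → SC (Kv u)} {n k : ℕ}

/-- The conditions at a place above two which does not split completely. -/
structure PlN (F₁ : IntermediateField K F) [NumberField F₁] [IsGalois K F₁]
    (η : (u : HeightOneSpectrum (𝓞 K)) → SC (Kv u)) (n k : ℕ) (p : HeightOneSpectrum (𝓞 K)) :
    Prop where
  all : DAll K F p n
  ker : KerOk k F₁ p
  big : ∃ c ∈ Dc K F₁ p, (c ^ 2 ^ k) ^ 2 ^ (k + 1) ≠ 1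
  alt : (∀ (M : IntermediateField K F) [NumberField M], IsGalois K M → F₁ ≤ M →
      ∃ c ∈ Dc K M p, ∀ y ∈ Dc K M p, ∃ i : ℕ, y = c ^ i) ∨
    mc F₁ p (hiS (Dc K F₁ p) k) ≠ η p

/-- The degrees of the layers. -/
def DegOk (K F : Type) [Field K] [NumberField K] [Field F] [Algebra K F] : Prop :=
  ∀ (M : IntermediateField K F) [NumberField M], IsGalois K M → ∃ r : ℕ, Module.finrank K M = 2 ^ r

theorem rs_one {M : IntermediateField K F} (h : F₁ ≤ M) {z : M ≃ₐ[K] M} (hz : rs h z = 1) (x : M)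
    (hx : (x : F) ∈ F₁) : z x = x := by
  have h1 := rs_coe h z ⟨x, hx⟩
  rw [hz] at h1
  exact Subtype.ext h1.symm

theorem ld_of (hdeg : DegOk K F) (hk1 : 1 ≤ k) (hk : n ≤ 2 ^ k) {p : HeightOneSpectrum (𝓞 K)}
    (hp : PlN F₁ η n k p) {M : IntermediateField K F} [NumberField M] [IsGalois K M] (hle : F₁ ≤ M) :
    LD (Dc K M p) (Dc K F₁ p) (rs hle) k := by
  have _ : FiniteDimensional K M := Module.Finite.of_restrictScalars_finite ℚ K M
  obtain ⟨r, hr⟩ := hdeg M inferInstance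
  have hD := hp.all M inferInstance
  have _ : FiniteDimensional K F₁ := Module.Finite.of_restrictScalars_finite ℚ K F₁
  refine ⟨?_, ?_, hk1, hD.comm', (cs_cyc hD hr hk).1, ?_, fun z hz => ?_, hp.big⟩
  · rw [IsPGroup.iff_card]
    exact ⟨r, by rw [IsGalois.card_aut_eq_finrank, hr]⟩
  · rw [IsPGroup.iff_card]
    obtain ⟨r₁, hr₁⟩ := hdeg F₁ inferInstance
    exact ⟨r₁, by rw [IsGalois.card_aut_eq_finrank, hr₁]⟩
  · let _ : Algebra F₁ M := (IntermediateField.inclusion hle).toRingHom.toAlgebra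
    have _ : IsScalarTower K F₁ M := IsScalarTower.of_algebraMap_eq fun _ => rfl
    exact dc_map (hp.all F₁ inferInstance)
  · exact (mem_cs hD).1 (hp.ker M inferInstance hle z fun x hx => rs_one hle hz x hx)

/-- Auxiliary places. -/
structure AuxN (F₁ : IntermediateField K F) [NumberField F₁] [IsGalois K F₁] (k : ℕ)
    (p : HeightOneSpectrum (𝓞 K)) (g₁ : F₁ ≃ₐ[K] F₁) (u : HeightOneSpectrum (𝓞 K)) : Prop where
  mem : g₁ ∈ Dc K F₁ p
  ne : g₁ ^ 2 ^ (k + 1) ≠ 1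
  dec : ∃ W₁ : HeightOneSpectrum (𝓞 F₁), dn K W₁ = u ∧ Dec K W₁ = Subgroup.zpowers g₁

theorem un_layer {u : HeightOneSpectrum (𝓞 K)} (hu : ¬ H30ZO.RamF K F u)
    (M : IntermediateField K F) [NumberField M] [IsGalois K M] : Un K M u :=
  un_of_ram fun V hV hR => hu ⟨M, inferInstance, V, hV, hR⟩

theorem auxN_dec (hdeg : DegOk K F) (hk : n ≤ 2 ^ k) {p u : HeightOneSpectrum (𝓞 K)}
    (hp : PlN F₁ η n k p) (hu : ¬ H30ZO.RamF K F u) {g₁ : F₁ ≃ₐ[K] F₁} (h : AuxN F₁ k p g₁ u)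
    {M : IntermediateField K F} [NumberField M] [IsGalois K M] (hle : F₁ ≤ M)
    {W : HeightOneSpectrum (𝓞 M)} (hW : dn K W = u) :
    Dec K W = (Subgroup.zpowers g₁).comap (rs hle) ∧ ∃ h ∈ Dc K M p, Dec K W = Subgroup.zpowers h := by
  obtain ⟨r, hr⟩ := hdeg M inferInstance
  obtain ⟨W₁, hW₁, hdec⟩ := h.dec
  let _ : Algebra F₁ M := (IntermediateField.inclusion hle).toRingHom.toAlgebra
  have _ : IsScalarTower K F₁ M := IsScalarTower.of_algebraMap_eq fun _ => rfl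
  exact aux_dec (un_layer hu M) (hp.all F₁ inferInstance) (hp.all M inferInstance) hr hk
    (fun z hz => hp.ker M inferInstance hle z fun x hx => rs_one hle hz x hx) h.mem h.ne hW₁ hdec hW

theorem sp_dec {u : HeightOneSpectrum (𝓞 K)} (hu : Sp K F u) {M : IntermediateField K F}
    [NumberField M] [IsGalois K M] {W : HeightOneSpectrum (𝓞 M)} (hW : dn K W = u) :
    Dec K W = ⊥ := by
  obtain ⟨ι, hι⟩ := hu
  exact dec_split (ι.comp (algebraMap M F)) (fun x => hι x) hW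

variable (F₁ k) in
/-- The set of the auxiliary places. -/
def AuxI (η : (u : HeightOneSpectrum (𝓞 K)) → SC (Kv u)) (n : ℕ) : Set (HeightOneSpectrum (𝓞 K)) :=
  {u | (6 : 𝓞 K) ∉ u.asIdeal ∧ ¬ H30ZO.RamF K F u ∧ (Sp K F u ∨
    ∃ p, (2 : 𝓞 K) ∈ p.asIdeal ∧ PlN F₁ η n k p ∧ ∃ g₁, AuxN F₁ k p g₁ u)}

theorem two_of_six {u : HeightOneSpectrum (𝓞 K)} (h : (6 : 𝓞 K) ∉ u.asIdeal) :
    (2 : 𝓞 K) ∉ u.asIdeal := by
  intro h2
  apply h
  have e1 : (6 : 𝓞 K) = 2 * 3 := by norm_num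
  rw [e1]
  exact Ideal.mul_mem_right _ _ h2

theorem z2 : ∀ s : ZMod 2, s = 0 ∨ s = 1 := by decide

theorem one_one : (1 : ZMod 2) + 1 = 0 := by decide

/-- The test with the element `g₁` and the sign `s`. -/
def ont (s : ZMod 2) (g₁ : F₁ ≃ₐ[K] F₁) (a : Ix F₁) : Prop :=
  if (Subgroup.zpowers g₁).comap (rs a.le) ≤ a.T then s = 1
  else if ∀ x ∈ (Subgroup.zpowers g₁).comap (rs a.le), x ^ 2 ∈ a.T then s = 0 else True

theorem fin_six : {u : HeightOneSpectrum (𝓞 K) | (6 : 𝓞 K) ∈ u.asIdeal}.Finite := H30MQ.fin_mem (by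
  intro h
  have h1 : algebraMap (𝓞 K) K 6 = 0 := by rw [h, map_zero]
  rw [map_ofNat] at h1
  have h2 : (6 : K) ≠ 0 := by norm_num
  exact h2 h1)

theorem real_ont (hdeg : DegOk K F) (hk : n ≤ 2 ^ k) (hram : {u | H30ZO.RamF K F u}.Finite)
    {p : HeightOneSpectrum (𝓞 K)} (hp2 : (2 : 𝓞 K) ∈ p.asIdeal) (hp : PlN F₁ η n k p)
    {g₁ : F₁ ≃ₐ[K] F₁} (hg : g₁ ∈ Dc K F₁ p) (hne : g₁ ^ 2 ^ (k + 1) ≠ 1) (s : ZMod 2) :
    Real η (xs η) (AuxI F₁ k η n) (s, ont s g₁) := by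
  refine (exists_dec (K := K) g₁ ({u | H30ZO.RamF K F u} ∪ {u | (6 : 𝓞 K) ∈ u.asIdeal})
    (hram.union fin_six)).mono ?_
  rintro u ⟨hu, -, W₁, hW₁, hdec⟩
  have hu1 : ¬ H30ZO.RamF K F u := fun h => hu (Or.inl h)
  have hu6 : (6 : 𝓞 K) ∉ u.asIdeal := fun h => hu (Or.inr h)
  have hA : AuxN F₁ k p g₁ u := ⟨hg, hne, W₁, hW₁, hdec⟩
  refine ⟨⟨hu6, hu1, Or.inr ⟨p, hp2, hp, g₁, hA⟩⟩, fun a => ?_⟩
  have h1 := (auxN_dec hdeg hk hp hu1 hA a.le (wc_dn (N := a.M) u)).1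
  rw [← dc_wc] at h1
  show xs η s u a = if ont s g₁ a then η u else 0
  unfold xs ont
  rw [if_neg (two_of_six hu6), h1]
  by_cases c1 : (Subgroup.zpowers g₁).comap (rs a.le) ≤ a.T
  · rw [if_pos c1, if_pos c1]
    rcases z2 s with rfl | rfl
    · rw [if_neg zero_ne_one, zero_smul]
    · rw [if_pos rfl, one_smul]
  · rw [if_neg c1, if_neg c1]
    by_cases c2 : ∀ x ∈ (Subgroup.zpowers g₁).comap (rs a.le), x ^ 2 ∈ a.T
    · rw [if_pos c2, if_pos c2]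
      rcases z2 s with rfl | rfl
      · rw [if_pos rfl, add_zero, one_smul]
      · rw [if_neg one_ne_zero, one_one, zero_smul]
    · rw [if_neg c2, if_neg c2, if_pos trivial]

theorem real_sp (hram : {u | H30ZO.RamF K F u}.Finite) (hsp : {v | Sp K F v}.Infinite) (s : ZMod 2) :
    Real η (xs (F₁ := F₁) η) (AuxI F₁ k η n) (s, fun _ => s = 1) := by
  refine (hsp.sdiff (hram.union fin_six)).mono ?_
  rintro u ⟨hu, hu2⟩
  have hu1 : ¬ H30ZO.RamF K F u := fun h => hu2 (Or.inl h)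
  have hu6 : (6 : 𝓞 K) ∉ u.asIdeal := fun h => hu2 (Or.inr h)
  refine ⟨⟨hu6, hu1, Or.inl hu⟩, fun a => ?_⟩
  have h1 : Dc K a.M u = ⊥ := sp_dec hu (wc_dn (N := a.M) u)
  have h2 : xs η s u a = s • η u := by
    unfold xs
    rw [if_neg (two_of_six hu6), h1, if_pos bot_le]
  rcases z2 s with rfl | rfl
  · refine h2.trans ?_
    rw [zero_smul]
    exact (if_neg zero_ne_one).symm
  · refine h2.trans ?_
    rw [one_smul]
    exact (if_pos rfl).symm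

section Cls

variable (hdeg : DegOk K F) (hk1 : 1 ≤ k) (hk : n ≤ 2 ^ k)
include hdeg hk1 hk

/-- The class of a nonempty type. -/
theorem rho_of {p : HeightOneSpectrum (𝓞 K)} (hp : PlN F₁ η n k p) {δ : Set (F₁ ≃ₐ[K] F₁)}
    (hδ : ∃ H₁ : Subgroup (F₁ ≃ₐ[K] F₁), H₁ ≤ Dc K F₁ p ∧ ∃ g ∈ Dc K F₁ p, g ∉ H₁ ∧
      (∀ x ∈ Dc K F₁ p, x ∈ H₁ ∨ x * g⁻¹ ∈ H₁) ∧ ∀ x ∈ Dc K F₁ p, x ∈ δ ↔ x ∉ H₁) :
    ∃ m : Kv p, RhoO (Wc K F₁ p) (over_of (wc_dn p)) δ m ∧ mc F₁ p δ = sc m ∧ sc m ≠ 0 := by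
  obtain ⟨H₁, hle, g, hg, hgH, hH, hδ'⟩ := hδ
  obtain ⟨m, hm, he⟩ := mc_spec (exists_rhoO (wc_dn p) (hp.all F₁ inferInstance).comm' H₁ hg hgH hle
    hH hδ')
  exact ⟨m, hm, he, rhoO_sc (wc_dn p) hm hg ((hδ' g hg).2 hgH)⟩

end Cls

end H76IN
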