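import Pool.Agent.H76.IN.Cn
import Pool.Agent.H30.MG.Cz

/-!
Project INF (MP_78d38b_nt, infinite case of MG): the configuration theorem (no row, proved).
-/

set_option autoImplicit false
set_option linter.unusedSectionVars false
open scoped Classical

open WithZero NumberField IsDedekindDomain H76PP H36CY H30MG H30CY H76AB H36MX H38RT H76MQ H76MX
open Pool.Agent.H42.PC H88AB H36IN H36MG
open H38T1 (SC sc)

namespace H76IN

variable {K F : Type} [Field K] [NumberField K] [Field F] [Algebra K F] {F₁ : IntermediateField K F}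
  [NumberField F₁] [IsGalois K F₁] {η : (u : HeightOneSpectrum (𝓞 K)) → SC (Kv u)} {n k : ℕ}

theorem xs_two {u : HeightOneSpectrum (𝓞 K)} (h2 : (2 : 𝓞 K) ∈ u.asIdeal) (s : ZMod 2) (a : Ix F₁) :
    xs η s u a = if ty u a = ∅ then η u else mc F₁ u (ty u a) := by
  unfold xs
  rw [if_pos h2]

theorem ty_sp {u : HeightOneSpectrum (𝓞 K)} (hu : Sp K F u) (a : Ix F₁) : ty u a = ∅ := by
  have h1 : Dc K a.M u = ⊥ := sp_dec hu (wc_dn (N := a.M) u)
  unfold ty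
  rw [h1, cl_empty bot_le, Set.image_empty]

section Main

variable (hdeg : DegOk K F) (hk1 : 1 ≤ k) (hk : n ≤ 2 ^ k)
include hdeg hk1 hk

theorem ty_sub {p : HeightOneSpectrum (𝓞 K)} (hp : PlN F₁ η n k p) (a : Ix F₁) {g : F₁ ≃ₐ[K] F₁}
    (hg : g ∈ ty p a) : g ∈ Dc K F₁ p := by
  obtain ⟨x, hx, rfl⟩ := hg
  rw [← (ld_of hdeg hk1 hk hp a.le).map]
  exact ⟨x, hx.1, rfl⟩

theorem mem_dc_of {p : HeightOneSpectrum (𝓞 K)} (hp : PlN F₁ η n k p) (a : Ix F₁)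
    {g : F₁ ≃ₐ[K] F₁} (hg : g ∈ Dc K F₁ p) {x : a.M ≃ₐ[K] a.M}
    (hx : x ∈ (Subgroup.zpowers g).comap (rs a.le)) : x ∈ Dc K a.M p := by
  have H := ld_of hdeg hk1 hk hp a.le
  rw [← H.map] at hg
  exact mem_of_zp H.ker hg hx

/-- The class of a nonempty type. -/
theorem xs_ne {p : HeightOneSpectrum (𝓞 K)} (hp2 : (2 : 𝓞 K) ∈ p.asIdeal) (hp : PlN F₁ η n k p)
    (s : ZMod 2) (a : Ix F₁) (ha : ty p a ≠ ∅) :
    ∃ m : Kv p, RhoO (Wc K F₁ p) (over_of (wc_dn p)) (ty p a) m ∧ mc F₁ p (ty p a) = sc m ∧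
      sc m ≠ 0 ∧ xs η s p a = sc m := by
  have H := ld_of hdeg hk1 hk hp a.le
  obtain ⟨m, h1, h2, h3⟩ := rho_of hdeg hk1 hk hp (δ := ty p a)
    (g7 H (a.cyc p hp2) (Set.nonempty_iff_ne_empty.2 ha))
  refine ⟨m, h1, h2, h3, ?_⟩
  rw [xs_two hp2, if_neg ha, h2]

theorem xs_ne_zero (hη : ∀ u, η u ≠ 0)
    (hP : ∀ p : HeightOneSpectrum (𝓞 K), (2 : 𝓞 K) ∈ p.asIdeal → Sp K F p ∨ PlN F₁ η n k p)
    {p : HeightOneSpectrum (𝓞 K)} (hp2 : (2 : 𝓞 K) ∈ p.asIdeal) (s : ZMod 2) (a : Ix F₁) :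
    xs η s p a ≠ 0 := by
  by_cases ha : ty p a = ∅
  · rw [xs_two hp2, if_pos ha]
    exact hη p
  · rcases hP p hp2 with h | h
    · exact absurd (ty_sp h a) ha
    · obtain ⟨m, -, -, h3, h4⟩ := xs_ne hdeg hk1 hk hp2 h s a ha
      rw [h4]
      exact h3

/-- A high index has the high type; a low index has a type which is decided in the first layer. -/
theorem low_or_high {p : HeightOneSpectrum (𝓞 K)} (hp2 : (2 : 𝓞 K) ∈ p.asIdeal)
    (hp : PlN F₁ η n k p) (a : Ix F₁) :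
    (ty p a = hiS (Dc K F₁ p) k ∧ ty p a ≠ ∅) ∨
    ∃ T₁ : Subgroup (F₁ ≃ₐ[K] F₁), (∀ h ∈ Dc K a.M p, h ∈ a.T ↔ rs a.le h ∈ T₁) ∧
      CyT (Dc K F₁ p) T₁ ∧ (∀ y ∈ Dc K F₁ p, y ^ 2 ^ k ∈ T₁) ∧ ty p a = clS (Dc K F₁ p) T₁ := by
  have H := ld_of hdeg hk1 hk hp a.le
  by_cases lo : ∀ y ∈ Dc K a.M p, y ^ 2 ^ k ∈ a.T
  · exact Or.inr (g4 H (a.cyc p hp2) lo)
  · left
    have hi : ∃ y ∈ Dc K a.M p, y ^ 2 ^ k ∉ a.T := by
      by_contra h
      exact lo fun y hy => by_contra fun h2 => h ⟨y, hy, h2⟩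
    have h1 := g3 H (a.cyc p hp2) hi
    refine ⟨h1, ?_⟩
    have h2 : ty p a = hiS (Dc K F₁ p) k := h1
    rw [h2]
    exact (hi_nonempty H.p2' H.cyc' H.ne1).ne_empty

/-- Separation at a place above two. -/
theorem hsep_of (hram : {u | H30ZO.RamF K F u}.Finite) {p : HeightOneSpectrum (𝓞 K)}
    (hp2 : (2 : 𝓞 K) ∈ p.asIdeal) (hp : PlN F₁ η n k p)
    (hηm : mc F₁ p (hiS (Dc K F₁ p) k) ≠ η p) (a₀ : Ix F₁) :
    ∃ T : List (ZMod 2 × (Ix F₁ → Prop)), (∀ t ∈ T, Real η (xs η) (AuxI F₁ k η n) t) ∧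
      (∀ t ∈ T, ∀ a, ty p a = ty p a₀ → t.2 a) ∧
      ∀ a, ty p a ≠ ty p a₀ → (∃ t ∈ T, ¬ t.2 a) ∨
        (xs η 0 p a = mc F₁ p (hiS (Dc K F₁ p) k) ∧
          xs η 0 p a₀ ≠ mc F₁ p (hiS (Dc K F₁ p) k)) := by
  have _ : FiniteDimensional K F₁ := Module.Finite.of_restrictScalars_finite ℚ K F₁
  have _ : Fintype (F₁ ≃ₐ[K] F₁) := Fintype.ofFinite _
  by_cases ha₀ : ty p a₀ = ∅
  · obtain ⟨L, hL⟩ : ∃ L : List (F₁ ≃ₐ[K] F₁), ∀ g, g ∈ L ↔ g ∈ Dc K F₁ p ∧ g ^ 2 ^ (k + 1) ≠ 1 :=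
      ⟨(Finset.univ.filter fun g => g ∈ Dc K F₁ p ∧ g ^ 2 ^ (k + 1) ≠ 1).toList, fun g => by
        rw [Finset.mem_toList, Finset.mem_filter]
        exact ⟨fun h => h.2, fun h => ⟨Finset.mem_univ _, h⟩⟩⟩
    refine ⟨L.map fun g => (1, ont 1 g), ?_, ?_, ?_⟩
    · intro t ht
      obtain ⟨g, hg, rfl⟩ := List.mem_map.1 ht
      obtain ⟨h1, h2⟩ := (hL g).1 hg
      exact real_ont hdeg hk hram hp2 hp h1 h2 1
    · intro t ht a ha
      obtain ⟨g, hg, rfl⟩ := List.mem_map.1 ht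
      obtain ⟨h1, h2⟩ := (hL g).1 hg
      have H := ld_of hdeg hk1 hk hp a.le
      have h3 : Dc K a.M p ≤ a.T := (g2 H (a.cyc p hp2)).1 (ha.trans ha₀)
      show ont 1 g a
      unfold ont
      have c1 : (Subgroup.zpowers g).comap (rs a.le) ≤ a.T :=
        fun x hx => h3 (mem_dc_of hdeg hk1 hk hp a h1 hx)
      rw [if_pos c1]
    · intro a ha
      rw [ha₀] at ha
      rcases low_or_high hdeg hk1 hk hp2 hp a with ⟨h1, -⟩ | ⟨T₁, h1, h2, h3, h4⟩
      · right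
        rw [xs_two hp2, if_neg ha, xs_two hp2, if_pos ha₀, h1]
        exact ⟨rfl, hηm.symm⟩
      · left
        have H := ld_of hdeg hk1 hk hp a.le
        obtain ⟨g, h5, h6, h7, h8⟩ := g6 H h2 h3 (fun h => ha (by rw [h4, cl_empty h]))
        refine ⟨(1, ont 1 g), List.mem_map.2 ⟨g, (hL g).2 ⟨h5, h8⟩, rfl⟩, ?_⟩
        show ¬ ont 1 g a
        unfold ont
        have c1 : ¬ (Subgroup.zpowers g).comap (rs a.le) ≤ a.T := by
          intro h
          have h9 := h5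
          rw [← H.map] at h9
          obtain ⟨x, hx, hxg⟩ := h9
          have h10 : x ∈ a.T := h (by
            rw [Subgroup.mem_comap, hxg]
            exact Subgroup.mem_zpowers _)
          apply h6
          rw [← hxg]
          exact (h1 x hx).1 h10
        have c2 : ∀ x ∈ (Subgroup.zpowers g).comap (rs a.le), x ^ 2 ∈ a.T := by
          intro x hx
          have hxD := mem_dc_of hdeg hk1 hk hp a h5 hx
          rw [h1 _ (Subgroup.pow_mem _ hxD 2), map_pow]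
          obtain ⟨j, hj⟩ := Subgroup.mem_zpowers_iff.1 (Subgroup.mem_comap.1 hx)
          rw [← hj, ← zpow_natCast, ← zpow_mul, mul_comm, zpow_mul, zpow_natCast]
          exact Subgroup.zpow_mem _ h7 j
        rw [if_neg c1, if_pos c2]
        exact one_ne_zero
  · have hδne : (ty p a₀).Nonempty := Set.nonempty_iff_ne_empty.2 ha₀
    have hty : IsTy (Dc K F₁ p) k (ty p a₀) :=
      isTy_of (ld_of hdeg hk1 hk hp a₀.le) (a₀.cyc p hp2)
    obtain ⟨L, hL⟩ : ∃ L : List (F₁ ≃ₐ[K] F₁), ∀ g, g ∈ L ↔ g ∈ ty p a₀ ∧ g ^ 2 ^ (k + 1) ≠ 1 :=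
      ⟨(Finset.univ.filter fun g => g ∈ ty p a₀ ∧ g ^ 2 ^ (k + 1) ≠ 1).toList, fun g => by
        rw [Finset.mem_toList, Finset.mem_filter]
        exact ⟨fun h => h.2, fun h => ⟨Finset.mem_univ _, h⟩⟩⟩
    refine ⟨L.map fun g => (0, ont 0 g), ?_, ?_, ?_⟩
    · intro t ht
      obtain ⟨g, hg, rfl⟩ := List.mem_map.1 ht
      obtain ⟨h1, h2⟩ := (hL g).1 hg
      exact real_ont hdeg hk hram hp2 hp (ty_sub hdeg hk1 hk hp a₀ h1) h2 0
    · intro t ht a ha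
      obtain ⟨g, hg, rfl⟩ := List.mem_map.1 ht
      obtain ⟨h1, h2⟩ := (hL g).1 hg
      show ont 0 g a
      unfold ont
      have c1 : ¬ (Subgroup.zpowers g).comap (rs a.le) ≤ a.T := by
        intro h
        rw [← ha] at h1
        obtain ⟨x, hx, rfl⟩ := h1
        exact hx.2.1 (h (by
          rw [Subgroup.mem_comap]
          exact Subgroup.mem_zpowers _))
      rw [if_neg c1]
      split_ifs with c2
      rfl
    · intro a ha
      rcases low_or_high hdeg hk1 hk hp2 hp a with ⟨h1, h0⟩ | ⟨T₁, h1, h2, h3, h4⟩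
      · right
        obtain ⟨m, m1, m2, m3, m4⟩ := xs_ne hdeg hk1 hk hp2 hp 0 a h0
        obtain ⟨m', m1', m2', m3', m4'⟩ := xs_ne hdeg hk1 hk hp2 hp 0 a₀ ha₀
        rw [← h1, m2, m4, m4']
        refine ⟨rfl, fun h => ha ?_⟩
        ext g
        constructor
        · intro hg
          exact (rhoO_inj (wc_dn p) m1 m1' h.symm (ty_sub hdeg hk1 hk hp a hg)).1 hg
        · intro hg
          exact (rhoO_inj (wc_dn p) m1 m1' h.symm (ty_sub hdeg hk1 hk hp a₀ hg)).2 hg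
      · left
        have H := ld_of hdeg hk1 hk hp a.le
        obtain ⟨g, h5, h6, h7⟩ := g5 H hδne hty h2 h3 (by rw [← h4]; exact ha)
        refine ⟨(0, ont 0 g), List.mem_map.2 ⟨g, (hL g).2 ⟨h5, h7⟩, rfl⟩, ?_⟩
        show ¬ ont 0 g a
        unfold ont
        have c1 : (Subgroup.zpowers g).comap (rs a.le) ≤ a.T := by
          intro x hx
          have hxD := mem_dc_of hdeg hk1 hk hp a (ty_sub hdeg hk1 hk hp a₀ h5) hx
          rw [h1 x hxD]
          exact (Subgroup.zpowers_le.2 h6) (Subgroup.mem_comap.1 hx)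
        rw [if_pos c1]
        exact zero_ne_one

/-- **The configuration theorem.** -/
theorem exists_configI (hH : ∀ v : HeightOneSpectrum (𝓞 K), HF (Kv v)) (hη : ∀ u, η u ≠ 0)
    (hηo : EtaOdd η) (hram : {u | H30ZO.RamF K F u}.Finite) (hsp : {v | Sp K F v}.Infinite)
    (hP : ∀ p : HeightOneSpectrum (𝓞 K), (2 : 𝓞 K) ∈ p.asIdeal → Sp K F p ∨ PlN F₁ η n k p)
    (R₀ : Finset (HeightOneSpectrum (𝓞 K))) (hR₀ : ∀ v ∈ R₀, (2 : 𝓞 K) ∉ v.asIdeal) :
    ∃ (C : CfgX K) (s : HeightOneSpectrum (𝓞 K) → ZMod 2) (W : Submodule (ZMod 2) C.V)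
      (n' : Ideal (𝓞 K)) (E : ℕ) (A₀ B₀ : 𝓞 K), C.Ok ∧ R₀ ⊆ C.R ∧
      (∀ v ∈ C.Z, ((2 : 𝓞 K) ∈ v.asIdeal ∧ s v = 0) ∨ v ∈ AuxI F₁ k η n) ∧
      TargetG C (fun u (a : Ix F₁) => xs η (s u) u a) W ∧
      ClassG C (fun u => LpM η (s u) u) n' E A₀ B₀ := by
  have _ : FiniteDimensional K F₁ := Module.Finite.of_restrictScalars_finite ℚ K F₁
  have _ : Finite (Set (F₁ ≃ₐ[K] F₁)) := inferInstance
  -- the places at which nothing has to be separated
  obtain ⟨Mg, hMg⟩ : ∃ Mg : HeightOneSpectrum (𝓞 K) → Prop, ∀ u, Mg u ↔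
      ∀ a : Ix F₁, xs η 0 u a = η u := ⟨fun u => ∀ a : Ix F₁, xs η 0 u a = η u, fun _ => Iff.rfl⟩
  have hnMg : ∀ p : HeightOneSpectrum (𝓞 K), (2 : 𝓞 K) ∈ p.asIdeal → ¬ Mg p →
      PlN F₁ η n k p ∧ mc F₁ p (hiS (Dc K F₁ p) k) ≠ η p := by
    intro p hp2 hM
    rcases hP p hp2 with h | h
    · exfalso
      apply hM
      rw [hMg]
      intro a
      rw [xs_two hp2, if_pos (ty_sp h a)]
    · refine ⟨h, fun he => hM ?_⟩
      rcases h.alt with hcyc | h2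
      · rw [hMg]
        intro a
        rw [xs_two hp2]
        split_ifs with ha
        · rfl
        · have h3 : ty p a = hiS (Dc K F₁ p) k :=
            g8 (ld_of hdeg hk1 hk h a.le) (a.cyc p hp2) (hcyc a.M inferInstance a.le)
              (Set.nonempty_iff_ne_empty.2 ha)
          rw [h3, he]
      · exact absurd he h2
  obtain ⟨C, s, W, n', E, A₀, B₀, h1, h2, h3, h4, h5⟩ := exists_configG K hH (ι := Ix F₁) hη (xs η)
    (LpM η) (AuxI F₁ k η n) (fun u hu => hu.1) R₀ hR₀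
    (fun u hu a => xs_ne_zero hdeg hk1 hk hη hP hu 0 a)
    (fun u hu => dyadicG η 0 hu) (fun u hu s => auxG hηo hu.1 s)
    (by
      have h := real_sp (F₁ := F₁) (k := k) (η := η) (n := n) hram hsp 1
      have e : (fun _ : Ix F₁ => True) = fun _ => (1 : ZMod 2) = 1 := by
        funext _
        exact (eq_true rfl).symm
      rw [e]
      exact h)
    (by
      have h := real_sp (F₁ := F₁) (k := k) (η := η) (n := n) hram hsp 0
      have e : (fun _ : Ix F₁ => False) = fun _ => (0 : ZMod 2) = 1 := by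
        funext _
        exact (eq_false zero_ne_one).symm
      rw [e]
      exact h)
    (D := Set (F₁ ≃ₐ[K] F₁)) (fun u a => if Mg u then ∅ else ty u a)
    (by
      intro u hu a a' h
      by_cases hM : Mg u
      · rw [(hMg u).1 hM a, (hMg u).1 hM a']
      · simp only [if_neg hM] at h
        rw [xs_two hu, xs_two hu, h])
    (fun u => mc F₁ u (hiS (Dc K F₁ u) k))
    (by
      intro u hu a₀
      by_cases hM : Mg u
      · refine ⟨[], fun t ht => absurd ht List.not_mem_nil, fun t ht => absurd ht List.not_mem_nil,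
          fun a ha => ?_⟩
        simp only [if_pos hM] at ha
        exact absurd rfl ha
      · obtain ⟨hp, hηm⟩ := hnMg u hu hM
        simp only [if_neg hM]
        exact hsep_of hdeg hk1 hk hram hu hp hηm a₀)
  refine ⟨C, s, W, n', E, A₀, B₀, h1, h2, fun v hv => ?_, h4, h5⟩
  rcases h3 v hv with h | h
  · exact Or.inl h
  · exact Or.inr h.1

end Main

end H76IN
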