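import Pool.Agent.H36.IN.Hi
import Pool.Agent.H30.MG.Cx

/-!
Project INF (MP_78d38b_nt, infinite case of MG): the group theory of one layer (no row, proved).
-/

set_option autoImplicit false
set_option linter.unusedSectionVars false
open scoped Classical

open H36MG H36IN H30MG

namespace H76IN

/-- The data of a layer: `D₁` is the decomposition group in the first layer, `r` the restriction. -/
structure LD {G G₁ : Type*} [Group G] [Group G₁] (D : Subgroup G) (D₁ : Subgroup G₁) (r : G →* G₁)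
    (k : ℕ) : Prop where
  p2 : IsPGroup 2 G
  p2' : IsPGroup 2 G₁
  k1 : 1 ≤ k
  comm : ∀ x ∈ D, ∀ y ∈ D, x * y = y * x
  cyc : ∃ c ∈ D, ∀ y ∈ D, ∃ i : ℕ, y ^ 2 ^ k = (c ^ 2 ^ k) ^ i
  map : D.map r = D₁
  ker : ∀ z, r z = 1 → ∃ y ∈ D, y ^ 2 ^ k = z
  big : ∃ c ∈ D₁, (c ^ 2 ^ k) ^ 2 ^ (k + 1) ≠ 1

section

variable {G G₁ : Type*} [Group G] [Group G₁] {D T : Subgroup G} {r : G →* G₁} {k : ℕ}
  {D₁ : Subgroup G₁}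

theorem LD.comm' (H : LD D D₁ r k) : ∀ x ∈ D₁, ∀ y ∈ D₁, x * y = y * x := by
  rw [← H.map]
  rintro _ ⟨x, hx, rfl⟩ _ ⟨y, hy, rfl⟩
  rw [← map_mul, ← map_mul, H.comm x hx y hy]

theorem LD.cyc' (H : LD D D₁ r k) : ∃ c ∈ D₁, ∀ y ∈ D₁, ∃ i : ℕ, y ^ 2 ^ k = (c ^ 2 ^ k) ^ i := by
  obtain ⟨c, hc, h⟩ := H.cyc
  rw [← H.map]
  refine ⟨r c, ⟨c, hc, rfl⟩, ?_⟩
  rintro _ ⟨y, hy, rfl⟩
  obtain ⟨i, hi⟩ := h y hy
  exact ⟨i, by rw [← map_pow, hi, map_pow, map_pow]⟩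

theorem LD.big' (H : LD D D₁ r k) : ∃ c ∈ D₁, c ^ 2 ^ (2 * k + 1) ≠ 1 := by
  obtain ⟨c, hc, h⟩ := H.big
  refine ⟨c, hc, fun h1 => h ?_⟩
  rw [← pow_mul, ← pow_add]
  have e : k + (k + 1) = 2 * k + 1 := by ring
  rw [e]
  exact h1

theorem LD.ne1 (H : LD D D₁ r k) : ∃ y ∈ D₁, y ^ 2 ^ k ≠ 1 := by
  obtain ⟨c, hc, h⟩ := H.big
  exact ⟨c, hc, fun h1 => h (by rw [h1, one_pow])⟩

theorem g1 (H : LD D D₁ r k) (hT : CyT D T) {h : G} : h ∈ clS D T ↔ r h ∈ r '' clS D T :=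
  cl_fib H.p2 H.comm H.k1 H.ker hT

theorem g2 (H : LD D D₁ r k) (hT : CyT D T) : r '' clS D T = ∅ ↔ D ≤ T := by
  constructor
  · intro h
    by_contra h1
    obtain ⟨x, hx⟩ := cl_nonempty H.comm hT h1
    have h2 : r x ∈ r '' clS D T := ⟨x, hx, rfl⟩
    rw [h] at h2
    exact h2
  · intro h
    rw [cl_empty h, Set.image_empty]

theorem g3 (H : LD D D₁ r k) (hT : CyT D T) (hi : ∃ y ∈ D, y ^ 2 ^ k ∉ T) :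
    r '' clS D T = hiS D₁ k := by
  have h1 := H.ne1
  rw [← H.map] at h1 ⊢
  exact map_high H.p2 H.comm H.cyc H.ker h1 hT hi

theorem g4 (H : LD D D₁ r k) (hT : CyT D T) (lo : ∀ y ∈ D, y ^ 2 ^ k ∈ T) :
    ∃ T₁ : Subgroup G₁, (∀ h ∈ D, h ∈ T ↔ r h ∈ T₁) ∧ CyT D₁ T₁ ∧ (∀ y ∈ D₁, y ^ 2 ^ k ∈ T₁) ∧
      r '' clS D T = clS D₁ T₁ := by
  refine ⟨(T ⊓ D).map r, fun h hh => low_mem H.ker lo hh, ?_, ?_, ?_⟩
  · rw [← H.map]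
    exact low_cyc r hT
  · rw [← H.map]
    rintro _ ⟨y, hy, rfl⟩
    exact ⟨y ^ 2 ^ k, ⟨lo y hy, D.pow_mem hy _⟩, map_pow _ _ _⟩
  · rw [← H.map]
    exact map_low H.ker lo

/-- The types which occur. -/
def IsTy (D₁ : Subgroup G₁) (k : ℕ) (δ₀ : Set G₁) : Prop :=
  (∃ T₀ : Subgroup G₁, CyT D₁ T₀ ∧ (∀ y ∈ D₁, y ^ 2 ^ k ∈ T₀) ∧ δ₀ = clS D₁ T₀) ∨ δ₀ = hiS D₁ k

theorem isTy_of (H : LD D D₁ r k) (hT : CyT D T) : IsTy D₁ k (r '' clS D T) := by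
  by_cases lo : ∀ y ∈ D, y ^ 2 ^ k ∈ T
  · obtain ⟨T₁, -, h2, h3, h4⟩ := g4 H hT lo
    exact Or.inl ⟨T₁, h2, h3, h4⟩
  · right
    refine g3 H hT ?_
    by_contra h
    exact lo fun y hy => by_contra fun h2 => h ⟨y, hy, h2⟩

theorem g5 (H : LD D D₁ r k) {δ₀ : Set G₁} (hδ₀ : δ₀.Nonempty) (hδ : IsTy D₁ k δ₀)
    {T₁ : Subgroup G₁} (hT₁ : CyT D₁ T₁) (lo : ∀ y ∈ D₁, y ^ 2 ^ k ∈ T₁)
    (hne : clS D₁ T₁ ≠ δ₀) : ∃ g ∈ δ₀, g ∈ T₁ ∧ g ^ 2 ^ (k + 1) ≠ 1 := by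
  rcases hδ with ⟨T₀, h1, h2, rfl⟩ | rfl
  · exact low_sep1 H.p2' H.comm' H.big' h1 hT₁ h2 lo hδ₀ hne
  · exact hi_sep H.p2' H.comm' H.cyc' H.big' hT₁ hne

theorem g5' (H : LD D D₁ r k) {δ₀ : Set G₁} (hδ₀ : δ₀.Nonempty) (hδ : IsTy D₁ k δ₀) :
    ∃ g ∈ δ₀, g ^ 2 ^ (k + 1) ≠ 1 := by
  have h1 : CyT D₁ D₁ := ⟨1, D₁.one_mem, fun h hh => ⟨0, h, hh, by rw [pow_zero, one_mul]⟩⟩
  obtain ⟨g, h2, -, h3⟩ := g5 H hδ₀ hδ h1 (fun y hy => D₁.pow_mem hy _) (by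
    rw [cl_empty le_rfl]
    exact hδ₀.ne_empty.symm)
  exact ⟨g, h2, h3⟩

theorem g6 (H : LD D D₁ r k) {T₁ : Subgroup G₁} (hT₁ : CyT D₁ T₁) (lo : ∀ y ∈ D₁, y ^ 2 ^ k ∈ T₁)
    (hne : ¬ D₁ ≤ T₁) : ∃ g ∈ D₁, g ∉ T₁ ∧ g ^ 2 ∈ T₁ ∧ g ^ 2 ^ (k + 1) ≠ 1 := by
  refine low_sep2 (T := D₁) H.p2' H.comm' H.big' lo (cl_empty le_rfl) ?_
  rw [cl_empty le_rfl]
  exact (cl_nonempty H.comm' hT₁ hne).ne_empty

theorem sqs_mul (hD : ∀ x ∈ D, ∀ y ∈ D, x * y = y * x)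
    {g h : G} (hg : g ∈ clS D T) (hh : h ∈ D) (hS : h ∉ sqs D T hD) : h * g⁻¹ ∈ sqs D T hD := by
  have hmem : ∀ h, h ∈ sqs D T hD ↔ h ∈ D ∧ ∃ x ∈ D, h * (x ^ 2)⁻¹ ∈ T := fun _ => Iff.rfl
  obtain ⟨i, hi⟩ := hg.2.2 h hh
  have hi' : h * (g ^ i)⁻¹ ∈ T := by
    have h1 := T.inv_mem hi
    rwa [mul_inv_rev, inv_inv] at h1
  rcases Nat.even_or_odd' i with ⟨k, rfl | rfl⟩
  · exfalso
    apply hS
    refine (hmem _).2 ⟨hh, g ^ k, D.pow_mem hg.1 k, ?_⟩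
    rw [← pow_mul, mul_comm k 2]
    exact hi'
  · refine (hmem _).2 ⟨D.mul_mem hh (D.inv_mem hg.1), g ^ k, D.pow_mem hg.1 k, ?_⟩
    have e : h * g⁻¹ * ((g ^ k) ^ 2)⁻¹ = h * (g ^ (2 * k + 1))⁻¹ := by
      rw [← pow_mul, mul_comm k 2, pow_succ, mul_inv_rev, mul_assoc]
    rw [e]
    exact hi'

theorem g7 (H : LD D D₁ r k) (hT : CyT D T) (hne : (r '' clS D T).Nonempty) :
    ∃ H₁ : Subgroup G₁, H₁ ≤ D₁ ∧ ∃ g ∈ D₁, g ∉ H₁ ∧ (∀ x ∈ D₁, x ∈ H₁ ∨ x * g⁻¹ ∈ H₁) ∧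
      ∀ x ∈ D₁, x ∈ r '' clS D T ↔ x ∉ H₁ := by
  have hmem : ∀ h, h ∈ sqs D T H.comm ↔ h ∈ D ∧ ∃ x ∈ D, h * (x ^ 2)⁻¹ ∈ T := fun _ => Iff.rfl
  have hcl : ∀ h ∈ D, h ∈ clS D T ↔ h ∉ sqs D T H.comm := by
    intro h hh
    rw [mem_cl H.p2 H.comm hT, hmem]
    constructor
    · rintro ⟨-, h1⟩ ⟨-, x, hx, hxT⟩
      exact h1 x hx hxT
    · intro h1
      exact ⟨hh, fun x hx hxT => h1 ⟨hh, x, hx, hxT⟩⟩
  have hmap : ∀ h ∈ D, r h ∈ (sqs D T H.comm).map r ↔ h ∈ sqs D T H.comm := by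
    intro h hh
    constructor
    · rintro ⟨h', hh', e⟩
      by_contra h1
      have h2 := (hcl h hh).2 h1
      have h3 : h' ∈ clS D T := by
        rw [g1 H hT, e]
        exact ⟨h, h2, rfl⟩
      exact (hcl h' hh'.1).1 h3 hh'
    · intro h1
      exact ⟨h, h1, rfl⟩
  have hm : ∀ x, x ∈ D₁ ↔ ∃ y ∈ D, r y = x := fun x => by
    rw [← Subgroup.mem_map, H.map]
  obtain ⟨_, g, hg, rfl⟩ := hne
  refine ⟨(sqs D T H.comm).map r, ?_, r g, ?_, ?_, ?_, ?_⟩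
  · rintro _ ⟨x, hx, rfl⟩
    exact (hm _).2 ⟨x, hx.1, rfl⟩
  · exact (hm _).2 ⟨g, hg.1, rfl⟩
  · rw [hmap g hg.1]
    exact (hcl g hg.1).1 hg
  · intro x hx₁
    obtain ⟨x, hx, rfl⟩ := (hm x).1 hx₁
    by_cases h1 : x ∈ sqs D T H.comm
    · exact Or.inl ⟨x, h1, rfl⟩
    · right
      exact ⟨x * g⁻¹, sqs_mul H.comm hg hx h1, by rw [map_mul, map_inv]⟩
  · intro x hx₁
    obtain ⟨x, hx, rfl⟩ := (hm x).1 hx₁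
    rw [hmap x hx, ← hcl x hx]
    exact (g1 H hT).symm

theorem g8 (H : LD D D₁ r k) (hT : CyT D T) (hcyc : ∃ c ∈ D, ∀ y ∈ D, ∃ i : ℕ, y = c ^ i)
    (hne : (r '' clS D T).Nonempty) : r '' clS D T = hiS D₁ k := by
  by_cases hi : ∃ y ∈ D, y ^ 2 ^ k ∉ T
  · exact g3 H hT hi
  obtain ⟨T₁, -, hT₁, -, he⟩ := g4 H hT fun y hy => by_contra fun h => hi ⟨y, hy, h⟩
  rw [he] at hne ⊢
  obtain ⟨c, hc, hgen⟩ := hcyc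
  have hc1 : r c ∈ D₁ := by
    rw [← H.map]
    exact ⟨c, hc, rfl⟩
  have hgen1 : ∀ y ∈ D₁, ∃ i : ℕ, y = r c ^ i := by
    rw [← H.map]
    rintro _ ⟨y, hy, rfl⟩
    obtain ⟨i, hi⟩ := hgen y hy
    exact ⟨i, by rw [hi, map_pow]⟩
  obtain ⟨c₁, hc₁⟩ : ∃ c₁, c₁ = r c := ⟨_, rfl⟩
  rw [← hc₁] at hc1 hgen1
  have hnT : ¬ D₁ ≤ T₁ := by
    intro h
    rw [cl_empty h] at hne
    exact hne.ne_empty rfl
  -- odd powers of `c₁` generate `D₁`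
  have hodd : ∀ j : ℕ, Odd j → ∀ U : Subgroup G₁, c₁ ^ j ∈ U → c₁ ∈ U := by
    intro j hj U h
    refine mem_of_odd_pow H.p2' U (n := (j : ℤ)) ?_ ?_
    · rw [Int.not_even_iff_odd]
      exact_mod_cast hj
    · rw [zpow_natCast]
      exact h
  have hcT : c₁ ∉ T₁ := by
    intro h
    apply hnT
    intro y hy
    obtain ⟨i, rfl⟩ := hgen1 y hy
    exact T₁.pow_mem h i
  ext y
  constructor
  · intro hy
    refine ⟨hy.1, fun x hx h => ?_⟩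
    obtain ⟨j, rfl⟩ := hgen1 y hy.1
    obtain ⟨i, rfl⟩ := hgen1 x hx
    have hj : Odd j := by
      rw [← Nat.not_even_iff_odd]
      rintro ⟨m, rfl⟩
      refine ((mem_cl H.p2' H.comm' hT₁).1 hy).2 (c₁ ^ m) (D₁.pow_mem hc1 m) ?_
      rw [← pow_mul, mul_two, mul_inv_cancel]
      exact T₁.one_mem
    -- `c₁ ^ (2 ^ k * (j - 2 i)) = 1`
    have h1 : c₁ ^ 2 ^ k = 1 := by
      have h2 : (c₁ ^ 2 ^ k) ^ ((j : ℤ) - 2 * i) ∈ (⊥ : Subgroup G₁) := by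
        rw [Subgroup.mem_bot, zpow_sub, mul_inv_eq_one]
        have e1 : (c₁ ^ 2 ^ k) ^ (j : ℤ) = (c₁ ^ j) ^ 2 ^ k := by
          rw [zpow_natCast, ← pow_mul, ← pow_mul, mul_comm]
        have e2 : (c₁ ^ 2 ^ k) ^ (2 * (i : ℤ)) = ((c₁ ^ i) ^ 2 ^ k) ^ 2 := by
          have e3 : (2 * (i : ℤ)) = ((2 * i : ℕ) : ℤ) := by push_cast; rfl
          rw [e3, zpow_natCast, ← pow_mul, ← pow_mul, ← pow_mul]
          congr 1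
          ring
        rw [e1, e2]
        exact h
      have h3 := mem_of_odd_pow H.p2' (⊥ : Subgroup G₁) (x := c₁ ^ 2 ^ k) (by
        rw [Int.not_even_iff_odd]
        obtain ⟨m, hm⟩ := hj
        exact ⟨(m : ℤ) - i, by rw [hm]; push_cast; ring⟩) h2
      exact Subgroup.mem_bot.1 h3
    obtain ⟨z, hz, hz1⟩ := H.ne1
    obtain ⟨l, rfl⟩ := hgen1 z hz
    apply hz1
    rw [← pow_mul, mul_comm, pow_mul, h1, one_pow]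
  · rintro ⟨hy, hy2⟩
    obtain ⟨j, rfl⟩ := hgen1 y hy
    have hj : Odd j := by
      rw [← Nat.not_even_iff_odd]
      rintro ⟨m, rfl⟩
      refine hy2 (c₁ ^ m) (D₁.pow_mem hc1 m) ?_
      rw [← pow_mul, ← pow_mul, ← pow_mul]
      congr 1
      ring
    refine ⟨hy, fun h => hcT (hodd j hj T₁ h), fun x hx => ?_⟩
    obtain ⟨i, rfl⟩ := hgen1 x hx
    have h1 : c₁ ∈ Subgroup.zpowers (c₁ ^ j) := hodd j hj _ (Subgroup.mem_zpowers _)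
    have h2 : c₁ ^ i ∈ Subgroup.zpowers (c₁ ^ j) := Subgroup.pow_mem _ h1 i
    obtain ⟨n, hn⟩ := H.p2' (c₁ ^ j)
    have hfin : IsOfFinOrder (c₁ ^ j) := isOfFinOrder_iff_pow_eq_one.2 ⟨2 ^ n, by positivity, hn⟩
    rw [← hfin.mem_powers_iff_mem_zpowers] at h2
    obtain ⟨l, hl⟩ := h2
    refine ⟨l, ?_⟩
    have hl' : (c₁ ^ j) ^ l = c₁ ^ i := hl
    rw [hl', mul_inv_cancel]
    exact T₁.one_mem

end

end H76IN
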