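import Pool.Agent.H76.IN.Ax
import Pool.Agent.H76.IN.Cl
import Pool.Agent.H76.AB.Cg
import Pool.Agent.H76.IN.Gr

/-!
Project INF (MP_78d38b_nt, infinite case of MG): the index type and the classes (no row, proved).
-/

set_option autoImplicit false
set_option linter.unusedSectionVars false
open scoped Classical

open WithZero NumberField IsDedekindDomain H76PP H36CY H30MG H30CY H76AB H36MX H38RT
open H76MX (Kv)
open H38T1 (SC sc)

namespace H76IN

section Res

variable {K F : Type} [Field K] [Field F] [Algebra K F]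

/-- The restriction to the first layer. -/
noncomputable def rs {F₁ M : IntermediateField K F} [Normal K F₁] (h : F₁ ≤ M) :
    (M ≃ₐ[K] M) →* (F₁ ≃ₐ[K] F₁) :=
  letI : Algebra F₁ M := (IntermediateField.inclusion h).toRingHom.toAlgebra
  haveI : IsScalarTower K F₁ M := IsScalarTower.of_algebraMap_eq fun _ => rfl
  AlgEquiv.restrictNormalHom F₁

theorem rs_coe {F₁ M : IntermediateField K F} [Normal K F₁] (h : F₁ ≤ M) (g : M ≃ₐ[K] M) (x : F₁) :
    ((rs h g x : F₁) : F) = ((g ⟨x, h x.2⟩ : M) : F) := by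
  let _ : Algebra F₁ M := (IntermediateField.inclusion h).toRingHom.toAlgebra
  have _ : IsScalarTower K F₁ M := IsScalarTower.of_algebraMap_eq fun _ => rfl
  have h1 : algebraMap F₁ M (AlgEquiv.restrictNormalHom F₁ g x) = g (algebraMap F₁ M x) :=
    AlgEquiv.restrictNormal_commutes g F₁ x
  exact congrArg Subtype.val h1

end Res

section Ind

variable {K F : Type} [Field K] [NumberField K] [Field F] [Algebra K F]

/-- The indices: a layer `M` and a subgroup of its Galois group, such that the decomposition groups above two are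
cyclic modulo the subgroup. -/
structure Ix (F₁ : IntermediateField K F) where
  M : IntermediateField K F
  nf : NumberField M
  gal : IsGalois K M
  le : F₁ ≤ M
  T : Subgroup (M ≃ₐ[K] M)
  cyc : ∀ u : HeightOneSpectrum (𝓞 K), (2 : 𝓞 K) ∈ u.asIdeal →
    CyT (Dc K M u) T

attribute [instance] Ix.nf Ix.gal

variable {F₁ : IntermediateField K F} [NumberField F₁] [IsGalois K F₁]

/-- The type of the index `a` at the place `u`. -/
noncomputable def ty (u : HeightOneSpectrum (𝓞 K)) (a : Ix F₁) : Set (F₁ ≃ₐ[K] F₁) :=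
  rs a.le '' H36MG.clS (Dc K a.M u) a.T

/-- The chosen place above `u`. -/
noncomputable def Wc (K N : Type) [Field K] [NumberField K] [Field N] [NumberField N] [Algebra K N]
    (u : HeightOneSpectrum (𝓞 K)) : HeightOneSpectrum (𝓞 N) := (exists_above (L := N) u).choose

theorem wc_dn {N : Type} [Field N] [NumberField N] [Algebra K N] (u : HeightOneSpectrum (𝓞 K)) :
    dn K (Wc K N u) = u := (exists_above (L := N) u).choose_spec

theorem over_of {N : Type} [Field N] [NumberField N] [Algebra K N] {u : HeightOneSpectrum (𝓞 K)}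
    {W : HeightOneSpectrum (𝓞 N)} (h : dn K W = u) : Pool.Agent.H10.Over u W := by
  subst h
  exact over_dn W

theorem dc_wc {N : Type} [Field N] [NumberField N] [Algebra K N] (u : HeightOneSpectrum (𝓞 K)) :
    Dc K N u = Dec K (Wc K N u) := rfl

/-- `m` is the class of the quadratic character of the decomposition group with the value `-1` on `δ`. -/
def RhoO {N : Type} [Field N] [NumberField N] [Algebra K N] {u : HeightOneSpectrum (𝓞 K)}
    (W : HeightOneSpectrum (𝓞 N)) (hov : Pool.Agent.H10.Over u W) (δ : Set (N ≃ₐ[K] N))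
    (m : Kv u) : Prop :=
  ∃ ρ : N, ρ ≠ 0 ∧ (∀ g ∈ Dec K W, g ∈ δ → g ρ = -ρ) ∧ (∀ g ∈ Dec K W, g ∉ δ → g ρ = ρ) ∧
    hov.map m = algebraMap N (W.adicCompletion N) ρ ^ 2

variable (F₁) in
/-- The class of the type `δ`. -/
noncomputable def mc (u : HeightOneSpectrum (𝓞 K)) (δ : Set (F₁ ≃ₐ[K] F₁)) : SC (Kv u) :=
  if h : ∃ m : Kv u, RhoO (Wc K F₁ u) (over_of (wc_dn u)) δ m then sc h.choose else 0

/-- The classes of the indices; `s` is the sign of an auxiliary place. -/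
noncomputable def xs (η : (u : HeightOneSpectrum (𝓞 K)) → SC (Kv u)) (s : ZMod 2)
    (u : HeightOneSpectrum (𝓞 K)) (a : Ix F₁) : SC (Kv u) :=
  if (2 : 𝓞 K) ∈ u.asIdeal then (if ty u a = ∅ then η u else mc F₁ u (ty u a))
  else (if Dc K a.M u ≤ a.T then s • η u
    else if ∀ g ∈ Dc K a.M u, g ^ 2 ∈ a.T then (1 + s) • η u else η u)

section Rho

variable {N : Type} [Field N] [NumberField N] [Algebra K N] {u : HeightOneSpectrum (𝓞 K)}
  {W : HeightOneSpectrum (𝓞 N)}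

theorem RhoO.ne {hov : Pool.Agent.H10.Over u W} {δ : Set (N ≃ₐ[K] N)} {m : Kv u}
    (h : RhoO W hov δ m) : m ≠ 0 := by
  obtain ⟨ρ, h0, -, -, h4⟩ := h
  rintro rfl
  rw [map_zero] at h4
  exact h0 ((map_eq_zero _).1 (pow_eq_zero_iff two_ne_zero |>.1 h4.symm))

theorem exists_rhoO [IsGalois K N] (hW : dn K W = u)
    (hcomm : ∀ x ∈ Dec K W, ∀ y ∈ Dec K W, x * y = y * x) (H : Subgroup (N ≃ₐ[K] N))
    {g : N ≃ₐ[K] N} (hg : g ∈ Dec K W) (hgH : g ∉ H) (hHD : H ≤ Dec K W)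
    (hH : ∀ x ∈ Dec K W, x ∈ H ∨ x * g⁻¹ ∈ H) {δ : Set (N ≃ₐ[K] N)}
    (hδ : ∀ x ∈ Dec K W, x ∈ δ ↔ x ∉ H) : ∃ m, RhoO W (over_of hW) δ m := by
  subst hW
  exact exists_rho W hcomm H hg hgH hHD hH hδ

theorem rhoO_inj (hW : dn K W = u) {δ δ' : Set (N ≃ₐ[K] N)} {m m' : Kv u}
    (h : RhoO W (over_of hW) δ m) (h' : RhoO W (over_of hW) δ' m') (he : sc m = sc m')
    {g : N ≃ₐ[K] N} (hg : g ∈ Dec K W) : g ∈ δ ↔ g ∈ δ' := by
  subst hW
  exact rho_inj h h' he hg

theorem rhoO_sc (hW : dn K W = u) {δ : Set (N ≃ₐ[K] N)} {m : Kv u}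
    (h : RhoO W (over_of hW) δ m) {g : N ≃ₐ[K] N} (hg : g ∈ Dec K W) (hgδ : g ∈ δ) : sc m ≠ 0 := by
  subst hW
  intro h0
  have h1 : Rho W ∅ (1 : (dn K W).adicCompletion K) :=
    ⟨1, one_ne_zero, fun g _ h => absurd h (Set.notMem_empty g), fun g _ _ => map_one g, by
      rw [map_one, map_one, one_pow]⟩
  have h2 : sc m = sc (1 : (dn K W).adicCompletion K) := by
    rw [h0]
    exact ((H38T1.sc_eq_zero one_ne_zero).2 ⟨1, (mul_one 1).symm⟩).symm
  exact (rho_inj h h1 h2 hg).1 hgδ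

theorem rhoO_unr (hW : dn K W = u) (h2 : (2 : 𝓞 K) ∈ u.asIdeal)
    {δ : Set (N ≃ₐ[K] N)} {m : Kv u} (h : RhoO W (over_of hW) δ m) {i : N ≃ₐ[K] N}
    (hi : i ∈ Dec K W) (hin : ∀ x : 𝓞 N, i • x - x ∈ W.asIdeal) (hiδ : i ∈ δ) {g0 : Kv u}
    (hg0 : Unr g0) (h0 : g0 ≠ 0) : sc m ≠ sc g0 := by
  subst hW
  refine rho_ne_unr ?_ h hi hin hiδ hg0 h0
  have h3 : algebraMap (𝓞 K) (𝓞 N) 2 ∈ W.asIdeal := h2
  rw [map_ofNat] at h3
  have h4 := (W.valuation_lt_one_iff_mem (K := N) (2 : 𝓞 N)).2 h3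
  have h5 : algebraMap (𝓞 N) N 2 = 2 := map_ofNat _ 2
  have h6 : W.valuation N (algebraMap (𝓞 N) N 2) < 1 := h4
  rwa [h5] at h6

end Rho

theorem mc_spec {u : HeightOneSpectrum (𝓞 K)} {δ : Set (F₁ ≃ₐ[K] F₁)}
    (h : ∃ m : Kv u, RhoO (Wc K F₁ u) (over_of (wc_dn u)) δ m) :
    ∃ m : Kv u, RhoO (Wc K F₁ u) (over_of (wc_dn u)) δ m ∧ mc F₁ u δ = sc m := by
  refine ⟨h.choose, h.choose_spec, ?_⟩
  unfold mc
  rw [dif_pos h]

end Ind

end H76IN
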