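import Pool.Agent.H76.IN.Co
import Pool.Agent.H88.AB.Fx

/-!
Project INF (MP_78d38b_nt, infinite case of MG): the main theorem from the configurations of the layers (no row,
proved).
-/

set_option autoImplicit false
set_option linter.unusedSectionVars false
open scoped Classical

open WithZero NumberField IsDedekindDomain H76PP H36CY H30MG H30CY H76AB H36MX H38RT H76MQ H76MX H73P2
open Pool.Agent.H42.PC H88AB H36IN H36MG
open H38T1 (SC sc)

namespace H76IN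

section Grp

variable {G : Type*} [Group G]

theorem hi_two {D : Subgroup G} (hp : IsPGroup 2 G) (hD : ∀ x ∈ D, ∀ y ∈ D, x * y = y * x) {k : ℕ}
    (hC : ∃ c ∈ D, ∀ y ∈ D, ∃ i : ℕ, y ^ 2 ^ k = (c ^ 2 ^ k) ^ i) (h1 : ∃ y ∈ D, y ^ 2 ^ k ≠ 1) :
    ∃ H₁ : Subgroup G, H₁ ≤ D ∧ ∃ g ∈ D, g ∉ H₁ ∧ (∀ x ∈ D, x ∈ H₁ ∨ x * g⁻¹ ∈ H₁) ∧
      ∀ x ∈ D, x ∈ hiS D k ↔ x ∉ H₁ := by
  obtain ⟨g, hg⟩ := hi_nonempty hp hC h1
  obtain ⟨c, hc, hgen⟩ := hC
  obtain ⟨H₁, hH⟩ : ∃ H₁ : Subgroup G, ∀ h, h ∈ H₁ ↔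
      h ∈ D ∧ ∃ x ∈ D, h ^ 2 ^ k = (x ^ 2 ^ k) ^ 2 := by
    refine ⟨{ carrier := {h | h ∈ D ∧ ∃ x ∈ D, h ^ 2 ^ k = (x ^ 2 ^ k) ^ 2}
              mul_mem' := ?_, one_mem' := ?_, inv_mem' := ?_ }, fun h => Iff.rfl⟩
    · rintro a b ⟨ha, x, hx, hax⟩ ⟨hb, y, hy, hby⟩
      refine ⟨D.mul_mem ha hb, x * y, D.mul_mem hx hy, ?_⟩
      have hab : Commute a b := hD a ha b hb
      have hxy : Commute x y := hD x hx y hy
      rw [hab.mul_pow, hxy.mul_pow, (hxy.pow_pow _ _).mul_pow, hax, hby]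
    · exact ⟨D.one_mem, 1, D.one_mem, by rw [one_pow, one_pow]⟩
    · rintro a ⟨ha, x, hx, hax⟩
      exact ⟨D.inv_mem ha, x⁻¹, D.inv_mem hx, by rw [inv_pow, inv_pow, inv_pow, hax]⟩
  refine ⟨H₁, fun x hx => ((hH x).1 hx).1, g, hg.1, fun h => ?_, fun x hx => ?_, fun x hx => ?_⟩
  · obtain ⟨-, y, hy, he⟩ := (hH g).1 h
    exact hg.2 y hy he
  · obtain ⟨i, hi⟩ := hgen x hx
    obtain ⟨j, hj⟩ := hgen g hg.1
    have key : ∀ m : ℕ, ((c ^ m) ^ 2 ^ k) ^ 2 = (c ^ 2 ^ k) ^ (m + m) := by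
      intro m
      rw [← pow_mul, ← pow_mul, ← pow_mul]
      congr 1
      ring
    rcases Nat.even_or_odd' i with ⟨a, rfl | rfl⟩
    · left
      rw [hH]
      exact ⟨hx, c ^ a, D.pow_mem hc a, by rw [hi, key, two_mul]⟩
    · rcases Nat.even_or_odd' j with ⟨b, rfl | rfl⟩
      · exact absurd (by rw [hj, key, two_mul]) (hg.2 (c ^ b) (D.pow_mem hc b))
      · right
        rw [hH]
        refine ⟨D.mul_mem hx (D.inv_mem hg.1), c ^ a * (c ^ b)⁻¹,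
          D.mul_mem (D.pow_mem hc a) (D.inv_mem (D.pow_mem hc b)), ?_⟩
        have e1 : Commute x g⁻¹ := by
          have h2 : Commute x g := hD x hx g hg.1
          exact h2.inv_right
        have e2 : Commute (c ^ a) (c ^ b)⁻¹ := ((Commute.refl c).pow_pow a b).inv_right
        rw [e1.mul_pow, e2.mul_pow, (e2.pow_pow _ _).mul_pow, inv_pow, inv_pow, inv_pow, hi, hj, key,
          key, two_mul, two_mul, pow_succ, pow_succ, mul_inv_rev]
        rw [mul_assoc, ← mul_assoc (c ^ 2 ^ k), mul_inv_cancel, one_mul]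
  · rw [hH]
    constructor
    · rintro h ⟨-, y, hy, he⟩
      exact h.2 y hy he
    · intro h
      exact ⟨hx, fun y hy he => h ⟨hx, y, hy, he⟩⟩

end Grp

section Pl

variable {K F : Type} [Field K] [NumberField K] [Field F] [Algebra K F]

theorem DOk.mono {N : Type} [Field N] [NumberField N] [Algebra K N] {u : HeightOneSpectrum (𝓞 K)}
    {n n' : ℕ} (h : DOk K N u n) (hn : n ≤ n') : DOk K N u n' :=
  ⟨h.comm, h.conj, fun W hW => by
    obtain ⟨g, hg, hi⟩ := h.idx W hW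
    exact ⟨g, hg, hi.trans hn⟩⟩

/-- The hypothesis at a place `p` above two which does not split completely: in all finite layers the decomposition
groups are cyclic up to a bounded index, commutative, with normal subgroups; and either they are all cyclic or the
`2^j`-th powers of their elements are `2^j`-th powers of elements of the inertia groups. -/
def PHyp (K F : Type) [Field K] [NumberField K] [Field F] [Algebra K F]
    (p : HeightOneSpectrum (𝓞 K)) (n j : ℕ) : Prop :=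
  DAll K F p n ∧
    ((∀ (M : IntermediateField K F) [NumberField M], IsGalois K M →
        ∀ W : HeightOneSpectrum (𝓞 M), dn K W = p → ∃ c ∈ Dec K W, ∀ y ∈ Dec K W,
          y ∈ Subgroup.zpowers c) ∨
      ∀ (M : IntermediateField K F) [NumberField M], IsGalois K M →
        ∀ W : HeightOneSpectrum (𝓞 M), dn K W = p → ∀ σ ∈ Dec K W, ∃ τ ∈ Dec K W,
          (∀ x : 𝓞 M, τ • x - x ∈ W.asIdeal) ∧ σ ^ 2 ^ j = τ ^ 2 ^ j)

theorem PHyp.mono {p : HeightOneSpectrum (𝓞 K)} {n j n' j' : ℕ} (h : PHyp K F p n j) (hn : n ≤ n')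
    (hj : j ≤ j') : PHyp K F p n' j' := by
  obtain ⟨h1, h2⟩ := h
  refine ⟨fun M _ hM => (h1 M hM).mono hn, h2.imp_right fun h M _ hM W hW σ hσ => ?_⟩
  obtain ⟨τ, hτ, hin, he⟩ := h M hM W hW σ hσ
  refine ⟨τ, hτ, hin, ?_⟩
  obtain ⟨i, rfl⟩ := Nat.exists_eq_add_of_le hj
  rw [pow_add, pow_mul, pow_mul, he]

variable {F₁ : IntermediateField K F} [NumberField F₁] [IsGalois K F₁]
  {η : (u : HeightOneSpectrum (𝓞 K)) → SC (Kv u)} {n k : ℕ}

theorem plN_of (hη2 : EtaTwo η) (hdeg : DegOk K F) (hk : n ≤ 2 ^ k)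
    {p : HeightOneSpectrum (𝓞 K)} (hp2 : (2 : 𝓞 K) ∈ p.asIdeal) (hp : PHyp K F p n k)
    (hker : KerOk k F₁ p) (hB : n * 2 ^ k * 2 ^ (k + 1) < Module.finrank K F₁) :
    PlN F₁ η n k p := by
  have _ : FiniteDimensional K F₁ := Module.Finite.of_restrictScalars_finite ℚ K F₁
  obtain ⟨hall, halt⟩ := hp
  obtain ⟨r, hr⟩ := hdeg F₁ inferInstance
  have hD := hall F₁ inferInstance
  have hbig := cs_big hD hr hk hB
  refine ⟨hall, hker, hbig, ?_⟩
  rcases halt with h | h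
  · left
    intro M _ hM _
    have _ : FiniteDimensional K M := Module.Finite.of_restrictScalars_finite ℚ K M
    obtain ⟨c, hc, hgen⟩ := h M hM (Wc K M p) (wc_dn p)
    refine ⟨c, hc, fun y hy => ?_⟩
    have h1 := hgen y hy
    rw [← mem_powers_iff_mem_zpowers] at h1
    obtain ⟨i, hi⟩ := h1
    exact ⟨i, hi.symm⟩
  · right
    have hpg : IsPGroup 2 (F₁ ≃ₐ[K] F₁) := by
      rw [IsPGroup.iff_card]
      exact ⟨r, by rw [IsGalois.card_aut_eq_finrank, hr]⟩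
    have hC := (cs_cyc hD hr hk).1
    have h1 : ∃ y ∈ Dc K F₁ p, y ^ 2 ^ k ≠ 1 := by
      obtain ⟨c, hc, hne⟩ := hbig
      exact ⟨c, hc, fun h => hne (by rw [h, one_pow])⟩
    obtain ⟨H₁, hle, g, hg, hgH, hH, hδ'⟩ := hi_two hpg hD.comm' hC h1
    obtain ⟨m, hm, he⟩ := mc_spec (exists_rhoO (wc_dn p) hD.comm' H₁ hg hgH hle hH hδ')
    rw [he]
    obtain ⟨g0, hg0, he0⟩ := hη2 p hp2
    rw [he0]
    obtain ⟨σ, hσ⟩ := hi_nonempty hpg hC h1
    obtain ⟨τ, hτ, hin, hpow⟩ := h F₁ inferInstance (Wc K F₁ p) (wc_dn p) σ hσ.1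
    refine rhoO_unr (wc_dn p) hp2 hm hτ hin ⟨hτ, fun x hx => ?_⟩ hg0 ?_
    · rw [← hpow]
      exact hσ.2 x hx
    · intro h0
      have h2 := unr_one (two_lt_of hp2) hg0
      rw [h0, map_zero] at h2
      exact zero_ne_one h2

end Pl

/-- The configurations of the layers. -/
def ConfLayer : Prop :=
  ∀ (K F : Type) [Field K] [NumberField K] [Field F] [Algebra K F] (F₁ : IntermediateField K F)
    [NumberField F₁] [IsGalois K F₁] (η : (u : HeightOneSpectrum (𝓞 K)) → SC (Kv u)) (n k : ℕ),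
    (∀ u, η u ≠ 0) → EtaTwo η → EtaOdd η → DegOk K F → 1 ≤ k → n ≤ 2 ^ k →
    (∀ p : HeightOneSpectrum (𝓞 K), (2 : 𝓞 K) ∈ p.asIdeal → Sp K F p ∨ PlN F₁ η n k p) →
    ∀ (C : CfgX K), C.Ok → ∀ (s : HeightOneSpectrum (𝓞 K) → ZMod 2),
    (∀ v ∈ C.Z, ((2 : 𝓞 K) ∈ v.asIdeal ∧ s v = 0) ∨ v ∈ AuxI F₁ k η n) →
    (∀ v, H30ZO.RamF K F v → v ∈ C.S) →
    ∀ (M : IntermediateField K F) [NumberField M] [IsGalois K M], F₁ ≤ M →
      Conf M C (fun u => LpM η (s u) u) (fun u (a : Ix F₁) => xs η (s u) u a)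

/-- **The main theorem** for infinite extensions. -/
theorem posP_inf (hL : ConfLayer) (K : Type) [Field K] [NumberField K] (hH : Hilb K)
    (hcs : ConicSplit K) (F : Type) [Field F] [Algebra K F] [IsGalois K F]
    (hinf : ¬ FiniteDimensional K F) (hdeg : DegOk K F) (hram : {u | H30ZO.RamF K F u}.Finite)
    (hsp : {v | Sp K F v}.Infinite)
    (hP : ∀ p : HeightOneSpectrum (𝓞 K), (2 : 𝓞 K) ∈ p.asIdeal → Sp K F p ∨ ∃ n j, PHyp K F p n j) :
    PosP K F := by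
  obtain ⟨η, hη, hη2, hηo⟩ := exists_etaG K
  have hfin2 : {v : HeightOneSpectrum (𝓞 K) | (2 : 𝓞 K) ∈ v.asIdeal}.Finite :=
    H30MQ.fin_mem two_ne_zero
  -- uniform bounds
  obtain ⟨b, hb⟩ : ∃ b : ℕ, ∀ p : HeightOneSpectrum (𝓞 K), (2 : 𝓞 K) ∈ p.asIdeal →
      Sp K F p ∨ PHyp K F p b b := by
    have h1 : ∀ p : HeightOneSpectrum (𝓞 K), ∃ b : ℕ, (2 : 𝓞 K) ∈ p.asIdeal →
        Sp K F p ∨ PHyp K F p b b := by
      intro p
      by_cases hp : (2 : 𝓞 K) ∈ p.asIdeal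
      · rcases hP p hp with h | ⟨n, j, h⟩
        · exact ⟨0, fun _ => Or.inl h⟩
        · exact ⟨max n j, fun _ => Or.inr (h.mono (le_max_left _ _) (le_max_right _ _))⟩
      · exact ⟨0, fun h => absurd h hp⟩
    choose b hb using h1
    refine ⟨hfin2.toFinset.sup b, fun p hp => ?_⟩
    have h2 : b p ≤ hfin2.toFinset.sup b := Finset.le_sup (hfin2.mem_toFinset.2 hp)
    exact (hb p hp).imp_right fun h => h.mono h2 h2
  obtain ⟨k, n, hk1, hk, hbn, hbk⟩ : ∃ k n : ℕ, 1 ≤ k ∧ n ≤ 2 ^ k ∧ b ≤ n ∧ b ≤ k :=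
    ⟨b + 1, b, Nat.le_add_left 1 b, (Nat.lt_two_pow_self.le).trans
      (Nat.pow_le_pow_right (by norm_num) (Nat.le_succ b)), le_rfl, Nat.le_succ b⟩
  have hb' : ∀ p : HeightOneSpectrum (𝓞 K), (2 : 𝓞 K) ∈ p.asIdeal → Sp K F p ∨ PHyp K F p n k :=
    fun p hp => (hb p hp).imp_right fun h => h.mono hbn hbk
  obtain ⟨P, hPm⟩ : ∃ P : Finset (HeightOneSpectrum (𝓞 K)), ∀ p, p ∈ P ↔
      (2 : 𝓞 K) ∈ p.asIdeal ∧ ¬ Sp K F p := by
    have h1 : {p : HeightOneSpectrum (𝓞 K) | (2 : 𝓞 K) ∈ p.asIdeal ∧ ¬ Sp K F p}.Finite :=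
      hfin2.subset fun p hp => hp.1
    refine ⟨h1.toFinset, fun p => ?_⟩
    rw [Set.Finite.mem_toFinset]
    rfl
  have hPh : ∀ p ∈ P, PHyp K F p n k := fun p hp =>
    (hb' p ((hPm p).1 hp).1).resolve_left ((hPm p).1 hp).2
  have _ : FiniteDimensional K (⊥ : IntermediateField K F) := inferInstance
  obtain ⟨F₁, ⟨hF₁, hF₁n⟩, -, hB, hker⟩ := exists_F1 (K := K) (F := F) hinf P hk hdeg
    (fun u hu => (hPh u hu).1) (n * 2 ^ k * 2 ^ (k + 1) + 1) ⊥ ⟨inferInstance, inferInstance⟩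
  have _ : NumberField F₁ := NumberField.of_module_finite K F₁
  have _ : IsGalois K F₁ := ⟨⟩
  have hPl : ∀ p : HeightOneSpectrum (𝓞 K), (2 : 𝓞 K) ∈ p.asIdeal → Sp K F p ∨ PlN F₁ η n k p := by
    intro p hp
    by_cases h : Sp K F p
    · exact Or.inl h
    · have hpP : p ∈ P := (hPm p).2 ⟨hp, h⟩
      exact Or.inr (plN_of hη2 hdeg hk hp (hPh p hpP) (hker p hpP) (Nat.lt_of_succ_le hB))
  obtain ⟨R₀, hR₀⟩ : ∃ R₀ : Finset (HeightOneSpectrum (𝓞 K)), ∀ v, v ∈ R₀ ↔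
      H30ZO.RamF K F v ∧ (2 : 𝓞 K) ∉ v.asIdeal := by
    have h1 : {v : HeightOneSpectrum (𝓞 K) | H30ZO.RamF K F v ∧ (2 : 𝓞 K) ∉ v.asIdeal}.Finite :=
      hram.subset fun v hv => hv.1
    refine ⟨h1.toFinset, fun v => ?_⟩
    rw [Set.Finite.mem_toFinset]
    rfl
  obtain ⟨C, s, W, n', E, A₀, B₀, hok, hR, hZ, hW, hcl⟩ := exists_configI hdeg hk1 hk hH.hf hη hηo
    hram hsp hPl R₀ (fun v hv => ((hR₀ v).1 hv).2)
  have hRS : ∀ v, H30ZO.RamF K F v → v ∈ C.S := by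
    intro v hv
    by_cases h2 : (2 : 𝓞 K) ∈ v.asIdeal
    · exact Finset.mem_union_left _ (hok.mem2 v h2)
    · exact Finset.mem_union_right _ (hR ((hR₀ v).2 ⟨hv, h2⟩))
  refine main_L (F := F) hH hcs hok (fun T hT => ?_) hdeg hsp hW hcl
  have hnc : FiniteDimensional K (IntermediateField.normalClosure K T F) ∧
      Normal K (IntermediateField.normalClosure K T F) := ⟨inferInstance, inferInstance⟩
  obtain ⟨hM1, hM2⟩ := lay_sup (K := K) (F := F) ⟨hF₁, hF₁n⟩ hnc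
  have _ : NumberField (F₁ ⊔ IntermediateField.normalClosure K T F : IntermediateField K F) :=
    NumberField.of_module_finite K _
  have _ : IsGalois K (F₁ ⊔ IntermediateField.normalClosure K T F : IntermediateField K F) := ⟨⟩
  refine ⟨F₁ ⊔ IntermediateField.normalClosure K T F,
    (IntermediateField.le_normalClosure T).trans le_sup_right, inferInstance, inferInstance, ?_⟩
  exact hL K F F₁ η n k hη hη2 hηo hdeg hk1 hk hPl C hok s hZ hRS _ le_sup_left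

end H76IN
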