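import Pool.Agent.H76.IN.Fi
import Pool.Agent.H36.IN.Lo

/-!
Project INF (MP_78d38b_nt, infinite case of MG): the main theorem for infinite extensions (no row, proved).
-/

set_option autoImplicit false
set_option linter.unusedSectionVars false
open scoped Classical

open WithZero NumberField IsDedekindDomain H76PP H36CY H30MG H30CY H76AB H36MX H38RT H76MQ H76MX H73P2
open Pool.Agent.H42.PC H88AB H36IN H36MG

namespace H76IN

theorem confLayer : ConfLayer := by
  intro K F _ _ _ _ F₁ _ _ η n k hη hη2 hηo hdeg hk1 hk hP C hC s hZ hR M _ _ hle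
  exact H76IN.L5.conf_layer hη hη2 hηo hdeg hk1 hk hP hC hZ hR M hle

/-- **The main theorem** for infinite extensions. -/
theorem posP_infinite (K : Type) [Field K] [NumberField K] (hH : Hilb K)
    (hcs : ConicSplit K) (F : Type) [Field F] [Algebra K F] [IsGalois K F]
    (hinf : ¬ FiniteDimensional K F) (hdeg : DegOk K F) (hram : {u | H30ZO.RamF K F u}.Finite)
    (hsp : {v | Sp K F v}.Infinite)
    (hP : ∀ p : HeightOneSpectrum (𝓞 K), (2 : 𝓞 K) ∈ p.asIdeal → Sp K F p ∨ ∃ n j, PHyp K F p n j) :
    PosP K F := posP_inf confLayer K hH hcs F hinf hdeg hram hsp hP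

end H76IN
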