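import Pool.Agent.H76.AB.Fr

/-!
Project INF (MP_78d38b_nt, infinite case of MG): decomposition groups at one place in a tower of layers (no row,
proved).
-/

set_option autoImplicit false
set_option linter.unusedSectionVars false
open scoped Classical

open WithZero NumberField IsDedekindDomain H76PP H36CY H30MG H30CY Pool.Agent.H42.PC H76AB

namespace H76IN

section One

/-- The conditions at the place `u` for the Galois extension `N / K`. -/
structure DOk (K N : Type) [Field K] [NumberField K] [Field N] [NumberField N] [Algebra K N]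
    (u : HeightOneSpectrum (𝓞 K)) (n : ℕ) : Prop where
  comm : ∀ W : HeightOneSpectrum (𝓞 N), dn K W = u → ∀ x ∈ Dec K W, ∀ y ∈ Dec K W, x * y = y * x
  conj : ∀ W : HeightOneSpectrum (𝓞 N), dn K W = u → ∀ x ∈ Dec K W, ∀ y,
    y * x * y⁻¹ ∈ Subgroup.zpowers x
  idx : ∀ W : HeightOneSpectrum (𝓞 N), dn K W = u →
    ∃ g ∈ Dec K W, (Subgroup.zpowers g).index ≤ n

/-- The decomposition group of some place above `u`. -/
noncomputable def Dc (K N : Type) [Field K] [NumberField K] [Field N] [NumberField N] [Algebra K N]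
    (u : HeightOneSpectrum (𝓞 K)) : Subgroup (N ≃ₐ[K] N) :=
  Dec K (exists_above (L := N) u).choose

/-- The `2^k`-th powers of the elements of the decomposition group. -/
noncomputable def Cs (K N : Type) [Field K] [NumberField K] [Field N] [NumberField N] [Algebra K N]
    (u : HeightOneSpectrum (𝓞 K)) (k : ℕ) : Subgroup (N ≃ₐ[K] N) :=
  Subgroup.closure ((fun y => y ^ 2 ^ k) '' (Dc K N u : Set (N ≃ₐ[K] N)))

variable {K N : Type} [Field K] [NumberField K] [Field N] [NumberField N] [Algebra K N]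
  {u : HeightOneSpectrum (𝓞 K)} {n : ℕ}

theorem dc_spec : ∃ W : HeightOneSpectrum (𝓞 N), dn K W = u ∧ Dc K N u = Dec K W :=
  ⟨_, (exists_above (L := N) u).choose_spec, rfl⟩

theorem norm_of_conj {D : Subgroup (N ≃ₐ[K] N)}
    (h : ∀ x ∈ D, ∀ y : N ≃ₐ[K] N, y * x * y⁻¹ ∈ Subgroup.zpowers x) : D.Normal :=
  ⟨fun x hx y => (Subgroup.zpowers_le.2 hx) (h x hx y)⟩

theorem DOk.dec [IsGalois K N] (h : DOk K N u n) {W : HeightOneSpectrum (𝓞 N)} (hW : dn K W = u) :
    Dec K W = Dc K N u := by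
  obtain ⟨W', hW', e⟩ := dc_spec (K := K) (N := N) (u := u)
  rw [e]
  exact dec_eq (hW.trans hW'.symm) (norm_of_conj (h.conj W' hW'))

theorem DOk.comm' (h : DOk K N u n) : ∀ x ∈ Dc K N u, ∀ y ∈ Dc K N u, x * y = y * x := by
  obtain ⟨W', hW', e⟩ := dc_spec (K := K) (N := N) (u := u)
  rw [e]
  exact h.comm W' hW'

theorem DOk.conj' (h : DOk K N u n) : ∀ x ∈ Dc K N u, ∀ y, y * x * y⁻¹ ∈ Subgroup.zpowers x := by
  obtain ⟨W', hW', e⟩ := dc_spec (K := K) (N := N) (u := u)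
  rw [e]
  exact h.conj W' hW'

theorem mem_cs (h : DOk K N u n) {k : ℕ} {z : N ≃ₐ[K] N} :
    z ∈ Cs K N u k ↔ ∃ y ∈ Dc K N u, y ^ 2 ^ k = z := by
  constructor
  · intro hz
    refine Subgroup.closure_induction (fun x hx => ?_) ?_ (fun x y _ _ hx hy => ?_)
      (fun x _ hx => ?_) hz
    · obtain ⟨y, hy, rfl⟩ := hx
      exact ⟨y, hy, rfl⟩
    · exact ⟨1, (Dc K N u).one_mem, one_pow _⟩
    · obtain ⟨a, ha, rfl⟩ := hx
      obtain ⟨b, hb, rfl⟩ := hy
      refine ⟨a * b, (Dc K N u).mul_mem ha hb, ?_⟩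
      have hc : Commute a b := h.comm' a ha b hb
      exact hc.mul_pow _
    · obtain ⟨a, ha, rfl⟩ := hx
      exact ⟨a⁻¹, (Dc K N u).inv_mem ha, inv_pow _ _⟩
  · rintro ⟨y, hy, rfl⟩
    exact Subgroup.subset_closure ⟨y, hy, rfl⟩

/-- The `2^k`-th powers form a cyclic subgroup of small index. -/
theorem cs_cyc [IsGalois K N] (h : DOk K N u n) {r : ℕ} (hr : Module.finrank K N = 2 ^ r) {k : ℕ}
    (hk : n ≤ 2 ^ k) : (∃ c ∈ Dc K N u, ∀ y ∈ Dc K N u, ∃ i : ℕ, y ^ 2 ^ k = (c ^ 2 ^ k) ^ i) ∧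
      (Cs K N u k).index ≤ n * 2 ^ k := by
  have _ : FiniteDimensional K N := Module.Finite.of_restrictScalars_finite ℚ K N
  obtain ⟨W, hW, e⟩ := dc_spec (K := K) (N := N) (u := u)
  obtain ⟨g, hg, hgi⟩ := h.idx W hW
  rw [← e] at hg
  have hcard : Nat.card (N ≃ₐ[K] N) = 2 ^ r := by
    rw [IsGalois.card_aut_eq_finrank, hr]
  have hnorm : (Subgroup.zpowers g).Normal := by
    refine ⟨fun x hx y => ?_⟩
    obtain ⟨j, rfl⟩ := Subgroup.mem_zpowers_iff.1 hx
    have h1 : y * g ^ j * y⁻¹ = (y * g * y⁻¹) ^ j := by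
      rw [conj_zpow]
    rw [h1]
    exact Subgroup.zpow_mem _ (h.conj' g hg y) j
  have hidx : (Subgroup.zpowers g).index ∣ 2 ^ k := by
    have h1 : (Subgroup.zpowers g).index ∣ 2 ^ r := by
      rw [← hcard]
      exact Subgroup.index_dvd_card _
    obtain ⟨j, -, hj⟩ := (Nat.dvd_prime_pow Nat.prime_two).1 h1
    rw [hj] at hgi ⊢
    apply pow_dvd_pow
    exact (Nat.pow_le_pow_iff_right (by norm_num : 1 < 2)).1 (hgi.trans hk)
  have hpow : ∀ y : N ≃ₐ[K] N, y ^ 2 ^ k ∈ Subgroup.zpowers g := by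
    intro y
    obtain ⟨m, hm⟩ := hidx
    rw [hm, pow_mul]
    exact Subgroup.pow_mem _ (Subgroup.pow_index_mem _ y) m
  constructor
  · -- the powers form a subgroup of a cyclic group
    have hle : Cs K N u k ≤ Subgroup.zpowers g := by
      intro z hz
      obtain ⟨y, -, rfl⟩ := (mem_cs h).1 hz
      exact hpow y
    have hcyc : IsCyclic (Cs K N u k) :=
      isCyclic_of_injective (Subgroup.inclusion hle) (Subgroup.inclusion_injective hle)
    obtain ⟨⟨z, hz⟩, hgen⟩ := hcyc.exists_generator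
    obtain ⟨c, hc, rfl⟩ := (mem_cs h).1 hz
    refine ⟨c, hc, fun y hy => ?_⟩
    have h1 := hgen ⟨y ^ 2 ^ k, (mem_cs h).2 ⟨y, hy, rfl⟩⟩
    rw [← mem_powers_iff_mem_zpowers] at h1
    obtain ⟨i, hi⟩ := h1
    exact ⟨i, (congrArg Subtype.val hi).symm⟩
  · have hle : Subgroup.zpowers (g ^ 2 ^ k) ≤ Cs K N u k := by
      rw [Subgroup.zpowers_le]
      exact (mem_cs h).2 ⟨g, hg, rfl⟩
    have h1 : (Cs K N u k).index ≤ (Subgroup.zpowers (g ^ 2 ^ k)).index :=
      Nat.le_of_dvd (Nat.pos_of_ne_zero Subgroup.index_ne_zero_of_finite)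
        (Subgroup.index_dvd_of_le hle)
    refine h1.trans ?_
    have h2 := (Subgroup.zpowers (g ^ 2 ^ k)).index_mul_card
    have h3 := (Subgroup.zpowers g).index_mul_card
    rw [Nat.card_zpowers] at h2 h3
    have h4 : orderOf g ≤ orderOf (g ^ 2 ^ k) * 2 ^ k := by
      apply Nat.le_of_dvd (Nat.mul_pos (orderOf_pos _) (by positivity))
      apply orderOf_dvd_of_pow_eq_one
      rw [mul_comm, pow_mul, pow_orderOf_eq_one]
    have h5 : (Subgroup.zpowers (g ^ 2 ^ k)).index * orderOf (g ^ 2 ^ k) ≤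
        (n * 2 ^ k) * orderOf (g ^ 2 ^ k) := by
      rw [h2, ← h3]
      calc (Subgroup.zpowers g).index * orderOf g ≤ n * (orderOf (g ^ 2 ^ k) * 2 ^ k) :=
            Nat.mul_le_mul hgi h4
        _ = (n * 2 ^ k) * orderOf (g ^ 2 ^ k) := by ring
    exact Nat.le_of_mul_le_mul_right h5 (orderOf_pos _)

end One

section Two

variable {K N₀ N : Type} [Field K] [NumberField K] [Field N₀] [NumberField N₀] [Field N] [NumberField N]
  [Algebra K N₀] [Algebra N₀ N] [Algebra K N] [IsScalarTower K N₀ N] [IsGalois K N₀] [IsGalois K N]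
  {u : HeightOneSpectrum (𝓞 K)} {n : ℕ}

theorem dc_map (h₀ : DOk K N₀ u n) : (Dc K N u).map (AlgEquiv.restrictNormalHom N₀) = Dc K N₀ u := by
  obtain ⟨W, hW, e⟩ := dc_spec (K := K) (N := N) (u := u)
  rw [e, dec_map W]
  exact h₀.dec ((dn_tower W).trans hW)

theorem cs_map (h₀ : DOk K N₀ u n) {k : ℕ} :
    (Cs K N u k).map (AlgEquiv.restrictNormalHom N₀) = Cs K N₀ u k := by
  unfold Cs
  rw [MonoidHom.map_closure]
  congr 1
  ext z
  constructor
  · rintro ⟨_, ⟨y, hy, rfl⟩, rfl⟩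
    refine ⟨AlgEquiv.restrictNormalHom N₀ y, ?_, ?_⟩
    · have h1 : AlgEquiv.restrictNormalHom N₀ y ∈ (Dc K N u).map (AlgEquiv.restrictNormalHom N₀) :=
        ⟨y, hy, rfl⟩
      rw [dc_map h₀] at h1
      exact h1
    · exact (map_pow _ _ _).symm
  · rintro ⟨y, hy, rfl⟩
    have h1 : y ∈ Dc K N₀ u := hy
    rw [← dc_map (N := N) h₀] at h1
    obtain ⟨x, hx, rfl⟩ := h1
    exact ⟨x ^ 2 ^ k, ⟨x, hx, rfl⟩, map_pow _ _ _⟩

/-- The index increases; if it does not then the kernel is contained in the group of the `2^k`-th powers. -/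
theorem cs_idx (h₀ : DOk K N₀ u n) {k : ℕ} : (Cs K N₀ u k).index ≤ (Cs K N u k).index ∧
    ((Cs K N u k).index ≤ (Cs K N₀ u k).index →
      ∀ z : N ≃ₐ[K] N, AlgEquiv.restrictNormalHom N₀ z = 1 → z ∈ Cs K N u k) := by
  have _ : FiniteDimensional K N := Module.Finite.of_restrictScalars_finite ℚ K N
  have hs : Function.Surjective (AlgEquiv.restrictNormalHom (F := K) (K₁ := N) N₀) :=
    AlgEquiv.restrictNormalHom_surjective N
  have h1 : ((Cs K N₀ u k).comap (AlgEquiv.restrictNormalHom (F := K) (K₁ := N) N₀)).index =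
      (Cs K N₀ u k).index := Subgroup.index_comap_of_surjective _ hs
  have hle : Cs K N u k ≤ (Cs K N₀ u k).comap (AlgEquiv.restrictNormalHom (F := K) (K₁ := N) N₀) := by
    rw [← cs_map (N := N) h₀]
    exact Subgroup.le_comap_map _ _
  have h2 := Subgroup.relIndex_mul_index hle
  rw [h1] at h2
  have h0 : (Cs K N₀ u k).index ≠ 0 := by
    rw [← h1]
    exact Subgroup.index_ne_zero_of_finite
  have h3 : (Cs K N u k).relIndex
      ((Cs K N₀ u k).comap (AlgEquiv.restrictNormalHom (F := K) (K₁ := N) N₀)) ≠ 0 := by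
    intro h4
    rw [h4, zero_mul] at h2
    exact Subgroup.index_ne_zero_of_finite h2.symm
  constructor
  · rw [← h2]
    exact Nat.le_mul_of_pos_left _ (Nat.pos_of_ne_zero h3)
  · intro h4 z hz
    have h5 : (Cs K N u k).relIndex
        ((Cs K N₀ u k).comap (AlgEquiv.restrictNormalHom (F := K) (K₁ := N) N₀)) = 1 := by
      rw [← h2] at h4
      have h6 := Nat.le_of_mul_le_mul_right (h4.trans (one_mul _).ge) (Nat.pos_of_ne_zero h0)
      omega
    apply Subgroup.relIndex_eq_one.1 h5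
    rw [Subgroup.mem_comap, hz]
    exact Subgroup.one_mem _

end Two

end H76IN
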