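import Pool.Agent.H76.IN.La

/-!
Project INF (MP_78d38b_nt, infinite case of MG): the choice of the first layer (no row, proved).
-/

set_option autoImplicit false
set_option linter.unusedSectionVars false
open scoped Classical

open WithZero NumberField IsDedekindDomain H76PP H36CY H30MG H30CY H76AB

namespace H76IN

section Lay

variable {K F : Type} [Field K] [NumberField K] [Field F] [Algebra K F]

theorem res_eq_one {M₁ M : Type} [Field M₁] [Field M] [Algebra K M₁] [Algebra K M] [Algebra M₁ M]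
    [IsScalarTower K M₁ M] [Normal K M₁] {z : M ≃ₐ[K] M}
    (hz : ∀ x : M₁, z (algebraMap M₁ M x) = algebraMap M₁ M x) :
    AlgEquiv.restrictNormalHom M₁ z = 1 := by
  apply AlgEquiv.ext
  intro x
  apply (algebraMap M₁ M).injective
  have h1 : algebraMap M₁ M (AlgEquiv.restrictNormalHom M₁ z x) = z (algebraMap M₁ M x) :=
    AlgEquiv.restrictNormal_commutes z M₁ x
  rw [h1, hz]
  rfl

/-- The conditions at `u` in all layers. -/
def DAll (K F : Type) [Field K] [NumberField K] [Field F] [Algebra K F]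
    (u : HeightOneSpectrum (𝓞 K)) (n : ℕ) : Prop :=
  ∀ (M : IntermediateField K F) [NumberField M], IsGalois K M → DOk K M u n

/-- The kernel of the restriction to `F₁` consists of `2^k`-th powers, in all layers. -/
def KerOk (k : ℕ) (F₁ : IntermediateField K F) (u : HeightOneSpectrum (𝓞 K)) : Prop :=
  ∀ (M : IntermediateField K F) [NumberField M], IsGalois K M → F₁ ≤ M →
    ∀ z : M ≃ₐ[K] M, (∀ x : M, (x : F) ∈ F₁ → z x = x) → z ∈ Cs K M u k

theorem KerOk.mono {k : ℕ} {F₁ F₂ : IntermediateField K F} {u : HeightOneSpectrum (𝓞 K)}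
    (h : KerOk k F₁ u) (hle : F₁ ≤ F₂) : KerOk k F₂ u := by
  intro M _ hM hM2 z hz
  exact h M hM (hle.trans hM2) z fun x hx => hz x (hle hx)

theorem exists_F1_one {u : HeightOneSpectrum (𝓞 K)} {n k : ℕ} (hD : DAll K F u n) (hk : n ≤ 2 ^ k)
    (hdeg : ∀ (M : IntermediateField K F) [NumberField M], IsGalois K M →
      ∃ r : ℕ, Module.finrank K M = 2 ^ r) :
    ∃ F₁ : IntermediateField K F, FiniteDimensional K F₁ ∧ Normal K F₁ ∧ KerOk k F₁ u := by
  obtain ⟨S, hS⟩ : ∃ S : Set ℕ, S = {m | ∃ (M : IntermediateField K F) (_ : NumberField M),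
      IsGalois K M ∧ (Cs K M u k).index = m} := ⟨_, rfl⟩
  have hne : S.Nonempty := by
    have _ : FiniteDimensional K (⊥ : IntermediateField K F) := inferInstance
    have h1 : NumberField (⊥ : IntermediateField K F) := NumberField.of_module_finite K _
    refine ⟨(Cs K (⊥ : IntermediateField K F) u k).index, ?_⟩
    rw [hS]
    exact ⟨⊥, h1, inferInstance, rfl⟩
  have hbd : BddAbove S := by
    refine ⟨n * 2 ^ k, ?_⟩
    rw [hS]
    rintro _ ⟨M, _, hM, rfl⟩
    obtain ⟨r, hr⟩ := hdeg M hM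
    exact (cs_cyc (hD M hM) hr hk).2
  have hmem := Nat.sSup_mem hne hbd
  have hmax : ∀ m ∈ S, m ≤ sSup S := fun m hm => le_csSup hbd hm
  obtain ⟨m, hm⟩ : ∃ m, m = sSup S := ⟨_, rfl⟩
  rw [← hm] at hmem hmax
  rw [hS] at hmem hmax
  obtain ⟨F₁, hnf, hgal, he⟩ := hmem
  refine ⟨F₁, Module.Finite.of_restrictScalars_finite ℚ K F₁, hgal.to_normal, ?_⟩
  intro M _ hM hle z hz
  let _ : Algebra F₁ M := (IntermediateField.inclusion hle).toRingHom.toAlgebra
  have _ : IsScalarTower K F₁ M := IsScalarTower.of_algebraMap_eq fun y => rfl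
  refine (cs_idx (N₀ := F₁) (N := M) (hD F₁ hgal)).2 ?_ z ?_
  · rw [he]
    exact hmax _ ⟨M, inferInstance, hM, rfl⟩
  · exact res_eq_one fun x => hz _ x.2

theorem lay_sup {M₁ M₂ : IntermediateField K F} (h₁ : FiniteDimensional K M₁ ∧ Normal K M₁)
    (h₂ : FiniteDimensional K M₂ ∧ Normal K M₂) :
    FiniteDimensional K (M₁ ⊔ M₂ : IntermediateField K F) ∧
      Normal K (M₁ ⊔ M₂ : IntermediateField K F) := by
  have _ := h₁.1
  have _ := h₁.2
  have _ := h₂.1
  have _ := h₂.2
  exact ⟨inferInstance, inferInstance⟩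

theorem lay_big [Normal K F] (hinf : ¬ FiniteDimensional K F) (B : ℕ) :
    ∃ M : IntermediateField K F, (FiniteDimensional K M ∧ Normal K M) ∧ B ≤ Module.finrank K M := by
  induction B with
  | zero =>
    have _ : FiniteDimensional K (⊥ : IntermediateField K F) := inferInstance
    exact ⟨⊥, ⟨inferInstance, inferInstance⟩, Nat.zero_le _⟩
  | succ B ih =>
    obtain ⟨M, hM, hB⟩ := ih
    have _ := hM.1
    have _ := hM.2
    have hne : M ≠ ⊤ := by
      rintro rfl
      apply hinf
      exact (IntermediateField.topEquiv (F := K) (E := F)).toLinearEquiv.finiteDimensional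
    obtain ⟨x, hx⟩ : ∃ x : F, x ∉ M := by
      by_contra h
      exact hne (eq_top_iff.2 fun x _ => by_contra fun h2 => h ⟨x, h2⟩)
    obtain ⟨Kx, hKx⟩ : ∃ Kx, Kx = IntermediateField.adjoin K {x} := ⟨_, rfl⟩
    have hfx : FiniteDimensional K Kx := by
      rw [hKx]
      exact IntermediateField.adjoin.finiteDimensional
        (Algebra.IsIntegral.isIntegral x)
    have hnc : FiniteDimensional K (IntermediateField.normalClosure K Kx F) ∧
        Normal K (IntermediateField.normalClosure K Kx F) := ⟨inferInstance, inferInstance⟩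
    obtain ⟨N, hN⟩ : ∃ N, N = M ⊔ IntermediateField.normalClosure K Kx F := ⟨_, rfl⟩
    have hNl := lay_sup hM hnc
    rw [← hN] at hNl
    have _ := hNl.1
    refine ⟨N, hNl, ?_⟩
    have hle : M ≤ N := by
      rw [hN]
      exact le_sup_left
    have hxN : x ∈ N := by
      rw [hN]
      apply (le_sup_right : _ ≤ M ⊔ IntermediateField.normalClosure K Kx F)
      apply IntermediateField.le_normalClosure
      rw [hKx]
      exact IntermediateField.mem_adjoin_simple_self K x
    have h1 : Module.finrank K M ≠ Module.finrank K N := by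
      intro h2
      apply hx
      rw [IntermediateField.eq_of_le_of_finrank_eq hle h2]
      exact hxN
    have h2 : Module.finrank K M ≤ Module.finrank K N :=
      IntermediateField.finrank_le_of_le_right hle
    omega

/-- **The first layer.** -/
theorem exists_F1 [IsGalois K F] (hinf : ¬ FiniteDimensional K F)
    (P : Finset (HeightOneSpectrum (𝓞 K))) {n k : ℕ} (hk : n ≤ 2 ^ k)
    (hdeg : ∀ (M : IntermediateField K F) [NumberField M], IsGalois K M →
      ∃ r : ℕ, Module.finrank K M = 2 ^ r) (hD : ∀ u ∈ P, DAll K F u n) (B : ℕ)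
    (F₀ : IntermediateField K F) (hF₀ : FiniteDimensional K F₀ ∧ Normal K F₀) :
    ∃ F₁ : IntermediateField K F, (FiniteDimensional K F₁ ∧ Normal K F₁) ∧ F₀ ≤ F₁ ∧
      B ≤ Module.finrank K F₁ ∧ ∀ u ∈ P, KerOk k F₁ u := by
  have h1 : ∀ Q : Finset (HeightOneSpectrum (𝓞 K)), Q ⊆ P →
      ∃ F₁ : IntermediateField K F, (FiniteDimensional K F₁ ∧ Normal K F₁) ∧
        ∀ u ∈ Q, KerOk k F₁ u := by
    intro Q
    induction Q using Finset.induction_on with
    | empty =>
      intro _
      have _ : FiniteDimensional K (⊥ : IntermediateField K F) := inferInstance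
      exact ⟨⊥, ⟨inferInstance, inferInstance⟩, fun u hu => absurd hu (Finset.notMem_empty u)⟩
    | insert a Q ha ih =>
      intro hQ
      obtain ⟨F₁, hl, h⟩ := ih ((Finset.subset_insert _ _).trans hQ)
      obtain ⟨F₂, hf₂, hn₂, h₂⟩ := exists_F1_one (hD a (hQ (Finset.mem_insert_self _ _))) hk hdeg
      refine ⟨F₁ ⊔ F₂, lay_sup hl ⟨hf₂, hn₂⟩, fun u hu => ?_⟩
      rcases Finset.mem_insert.1 hu with rfl | hu
      · exact h₂.mono le_sup_right
      · exact (h u hu).mono le_sup_left
  obtain ⟨F₁, hl, h⟩ := h1 P subset_rfl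
  obtain ⟨M, hM, hB⟩ := lay_big (K := K) (F := F) hinf B
  have hl2 := lay_sup (lay_sup hl hM) hF₀
  refine ⟨F₁ ⊔ M ⊔ F₀, hl2, le_sup_right, ?_, fun u hu => (h u hu).mono
    (le_sup_left.trans le_sup_left)⟩
  have _ := hl2.1
  exact hB.trans (IntermediateField.finrank_le_of_le_right (le_sup_right.trans le_sup_left))

/-- The group of the `2^k`-th powers is large if the degree is. -/
theorem cs_big {K N : Type} [Field K] [NumberField K] [Field N] [NumberField N] [Algebra K N]
    [IsGalois K N] {u : HeightOneSpectrum (𝓞 K)} {n k : ℕ} (h : DOk K N u n) {r : ℕ}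
    (hr : Module.finrank K N = 2 ^ r) (hk : n ≤ 2 ^ k)
    (hB : n * 2 ^ k * 2 ^ (k + 1) < Module.finrank K N) :
    ∃ c ∈ Dc K N u, (c ^ 2 ^ k) ^ 2 ^ (k + 1) ≠ 1 := by
  have _ : FiniteDimensional K N := Module.Finite.of_restrictScalars_finite ℚ K N
  obtain ⟨⟨c, hc, hgen⟩, hidx⟩ := cs_cyc h hr hk
  refine ⟨c, hc, fun h1 => ?_⟩
  have h2 : Cs K N u k ≤ Subgroup.zpowers (c ^ 2 ^ k) := by
    intro z hz
    obtain ⟨y, hy, rfl⟩ := (mem_cs h).1 hz
    obtain ⟨i, hi⟩ := hgen y hy
    rw [hi]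
    exact Subgroup.npow_mem_zpowers _ _
  have h3 : Nat.card (Cs K N u k) ≤ 2 ^ (k + 1) := by
    have h4 := Subgroup.card_le_of_le h2
    rw [Nat.card_zpowers] at h4
    exact h4.trans (Nat.le_of_dvd (by positivity) (orderOf_dvd_of_pow_eq_one h1))
  have h5 := (Cs K N u k).index_mul_card
  rw [IsGalois.card_aut_eq_finrank] at h5
  have h6 : (Cs K N u k).index * Nat.card (Cs K N u k) ≤ n * 2 ^ k * 2 ^ (k + 1) :=
    Nat.mul_le_mul hidx h3
  omega

end Lay

end H76IN
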